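import Pool.Agent.Lib.MP_640417_ag.Fr.Dbl

/-!
# MP_640417_ag, Fr, module ResF (100 lines): restriction to an open subgroup

The model is `Gn/ResG.lean` (and `res` in `Ty/Defs.lean`): an open subgroup of `U` is (the trace of) an open subgroup of `Γ`.
-/

set_option autoImplicit false

namespace Pool.Agent.Lib.MP_640417_ag.Fr

variable {Γ : Type} [Group Γ] [TopologicalSpace Γ] [IsTopologicalGroup Γ] {F : Type} [Field F]
  [TopologicalSpace F] {V : Type} [AddCommGroup V] [Module F V]

/-- the restriction to an open subgroup -/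
def resF (ρ : FormRep Γ F V) (U : OpenSubgroup Γ) : FormRep U F V where
  T := ρ.T.comp U.toSubgroup.subtype
  χ := ρ.χ.comp U.toSubgroup.subtype
  continuous_coeff f x := (ρ.continuous_coeff f x).comp continuous_subtype_val
  form := ρ.form
  form_nondeg := ρ.form_nondeg
  form_nondeg' := ρ.form_nondeg'
  form_equivariant γ x y := ρ.form_equivariant γ x y

variable (ρ : FormRep Γ F V) (U : OpenSubgroup Γ)

theorem dbl_res [ContinuousAdd F] :
    dbl (resF ρ U) = Pool.Agent.Lib.MP_640417_ag.Ty.res (dbl ρ) U := by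
  rfl

omit [IsTopologicalGroup Γ] in
private theorem res_existsF (U : OpenSubgroup Γ) (p : Γ → Prop) :
    (∃ W : OpenSubgroup U, ∀ γ ∈ W, p (γ : Γ)) ↔ ∃ W : OpenSubgroup Γ, ∀ γ ∈ W, p γ := by
  constructor
  · rintro ⟨W, hW⟩
    have ho : IsOpen ((W.toSubgroup.map U.toSubgroup.subtype : Subgroup Γ) : Set Γ) := by
      rw [Subgroup.coe_map]
      exact U.isOpen.isOpenMap_subtype_val _ W.isOpen
    refine ⟨⟨W.toSubgroup.map U.toSubgroup.subtype, ho⟩, ?_⟩
    intro γ hγ
    obtain ⟨u, hu, rfl⟩ : γ ∈ W.toSubgroup.map U.toSubgroup.subtype := hγ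
    exact hW u hu
  · rintro ⟨W, hW⟩
    refine ⟨W.comap U.toSubgroup.subtype continuous_subtype_val, ?_⟩
    intro γ hγ
    exact hW _ hγ

theorem inCom_res (c : Module.End F V) : InCom (resF ρ U) c ↔ InCom ρ c :=
  res_existsF U fun γ => c * ρ.T γ = ρ.T γ * c

theorem cenSkew_res (z : Module.End F V) : CenSkew (resF ρ U) z ↔ CenSkew ρ z := by
  unfold CenSkew
  simp only [inCom_res]
  exact Iff.rfl

theorem lefSkew_res (X : Module.End F V) : Lef (resF ρ U) X ↔ Lef ρ X := by
  unfold Lef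
  simp only [inCom_res]
  exact Iff.rfl

theorem tateF_res (i : ℕ) (f : MultilinearMap F (fun _ : Fin (2 * i) => V) F) :
    TateF (resF ρ U) i f ↔ TateF ρ i f :=
  res_existsF U fun γ => ∀ v, (ρ.χ γ : F) ^ i * f (fun j => ρ.T γ (v j)) = f v

end Pool.Agent.Lib.MP_640417_ag.Fr
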