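import Pool.Agent.Lib.MP_640417_ag.Fr.Dbl

/-!
# MP_640417_ag, Fr, module SemiD (100 lines): the doubled representation is semisimple

Let `W` be a stable subspace of `V × V`. Let `A = {x | (x, 0) ∈ W}` (stable), `B = {y | ∃ x, (x, y) ∈ W}` (stable). Choose stable
complements `A'` of `A` and `B'` of `B`. Put `W' = A' × B' = {(x, y) | x ∈ A', y ∈ B'}`, stable. `W ⊓ W' = ⊥`: `(x, y) ∈ W`, `y ∈ B ⊓ B' = ⊥`, so
`y = 0`, `x ∈ A ⊓ A' = ⊥`. `W ⊔ W' = ⊤`: `(x, y)`: `y = b + b'`, `(a, b) ∈ W` for some `a`, `x - a = a1 + a'` with `a1 ∈ A`, `a' ∈ A'`, so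
`(x, y) = (a, b) + (a1, 0) + (a', b')`.
-/

set_option autoImplicit false

namespace Pool.Agent.Lib.MP_640417_ag.Fr

variable {Γ : Type} [Group Γ] [TopologicalSpace Γ] {F : Type} [Field F]
  [TopologicalSpace F] [ContinuousAdd F] {V : Type} [AddCommGroup V] [Module F V]
  (ρ : FormRep Γ F V)

theorem semi_dbl (h : Semisimple ρ) : Pool.Agent.Lib.MP_640417_ag.Four.Semisimple (dbl ρ) := by
  intro W hW
  have hW' : ∀ γ x y, (x, y) ∈ W → (ρ.T γ x, ρ.T γ y) ∈ W := fun γ x y hxy => hW γ (x, y) hxy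
  obtain ⟨A', hA', hAc⟩ := h (W.comap (LinearMap.inl F V V)) (fun γ y hy => by
    have h1 := hW' γ y 0 hy
    rw [map_zero] at h1
    exact h1)
  obtain ⟨B', hB', hBc⟩ := h (W.map (LinearMap.snd F V V)) (fun γ y hy => by
    obtain ⟨⟨a, b⟩, hab, rfl⟩ := hy
    exact ⟨(ρ.T γ a, ρ.T γ b), hW' γ a b hab, rfl⟩)
  refine ⟨A'.prod B', fun γ y hy => ⟨hA' γ _ hy.1, hB' γ _ hy.2⟩, ?_⟩
  rw [isCompl_iff, Submodule.disjoint_def, codisjoint_iff]
  constructor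
  · rintro ⟨x, y⟩ hxy ⟨hx, hy⟩
    have hy0 : y = 0 := Submodule.disjoint_def.1 hBc.disjoint y ⟨(x, y), hxy, rfl⟩ hy
    subst hy0
    have hx0 : x = 0 := Submodule.disjoint_def.1 hAc.disjoint x hxy hx
    subst hx0
    rfl
  · rw [Submodule.eq_top_iff']
    rintro ⟨x, y⟩
    obtain ⟨b, ⟨⟨a, b0⟩, hab, hb⟩, b', hb', hbb⟩ :=
      Submodule.mem_sup.1 (Submodule.eq_top_iff'.1 hBc.sup_eq_top y)
    obtain ⟨a1, ha1, a', ha', haa⟩ :=
      Submodule.mem_sup.1 (Submodule.eq_top_iff'.1 hAc.sup_eq_top (x - a))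
    have hb1 : b0 = b := hb
    subst hb1
    refine Submodule.mem_sup.2 ⟨(a, b0) + (a1, 0), W.add_mem hab ha1, (a', b'), ⟨ha', hb'⟩, ?_⟩
    refine Prod.ext ?_ ?_
    · show a + a1 + a' = x
      rw [add_assoc, haa, add_sub_cancel]
    · show b0 + 0 + b' = y
      rw [add_zero, hbb]

end Pool.Agent.Lib.MP_640417_ag.Fr
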