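import Pool.Agent.Lib.MP_640417_ag.Fr.CommD

/-!
# MP_640417_ag, Fr, module WtD (250 lines): weights of the doubled representation

`K = AlgebraicClosure F`. `prK a = (pr F V a).baseChange K`, `injK a = (inj F V a).baseChange K`; `prK_injK`, `injK_prK` follow from
`pr_inj`, `inj_pr` (`LinearMap.baseChange_comp`, `baseChange_add`, `baseChange_id`). For `X : End V`:
`prK a ∘ (X.prodMap X).baseChange K = X.baseChange K ∘ prK a`, and the same for `injK`.
* `wt_dbl`: `y ∈ Wt (dbl ρ) γ z κ'` if and only if both `prK a y ∈ WtF ρ γ z κ` with `κ c = κ' (c.prodMap c)`. Generalized eigenspaces: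
  `prK a (((T' γ)_K - z)^n y) = ((T γ)_K - z)^n (prK a y)`; eigenspaces of `z'_K`, `z' = z.prodMap z` (`central_dbl`): the same.
* `dual_dbl`: `central_dbl`, `(dbl ρ).χ = ρ.χ`.
* `isolated_dbl`: irreducibility. `→`: let `N ≤ WtF` be stable under the commutant. `N' = {y | prK a y ∈ N for both a}` is contained in
  `Wt (dbl ρ) γ z κ'` and stable under `CommF (dbl ρ)` (`commF_dbl`: `prK a (c_K y) = ∑ b, (cmp a b c)_K (prK b y)`), so it is `⊥` or everything; then
  `N = ⊥` or everything (use `y = injK false x`). `←`: let `N' ≤ Wt (dbl ρ)` be stable. `N = {x | injK false x ∈ N'}` is stable under the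
  commutant (`inj false ∘ c ∘ pr false` is in `CommF (dbl ρ)`), and `y ∈ N'` if and only if both `prK a y ∈ N` (the matrix units
  `inj a ∘ pr b` are in `CommF (dbl ρ)`). Relations: a weight `(z₂, κ₂')` of `dbl ρ` with nonzero weight space gives the weight
  `(z₂, c ↦ κ₂' (c.prodMap c))` of `ρ` with nonzero weight space, and every `κ₂` is of this form: `κ₂' c' = κ₂ (cmp false false c')`
  (`cmp false false (c.prodMap c) = c`). The conditions on the sums correspond by `central_dbl`.
-/

set_option autoImplicit false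

namespace Pool.Agent.Lib.MP_640417_ag.Fr

open TensorProduct Pool.Agent.Lib.MP_640417_ag.Ty Pool.Agent.Lib.MP_640417_ag.Ctl

section

variable (F V : Type) [Field F] [AddCommGroup V] [Module F V]

/-- the projections over `K` -/
noncomputable def prK (a : Bool) :
    AlgebraicClosure F ⊗[F] (V × V) →ₗ[AlgebraicClosure F] AlgebraicClosure F ⊗[F] V :=
  (pr F V a).baseChange (AlgebraicClosure F)

/-- the inclusions over `K` -/
noncomputable def injK (a : Bool) :
    AlgebraicClosure F ⊗[F] V →ₗ[AlgebraicClosure F] AlgebraicClosure F ⊗[F] (V × V) :=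
  (inj F V a).baseChange (AlgebraicClosure F)

theorem prK_injK (a b : Bool) (x : AlgebraicClosure F ⊗[F] V) :
    prK F V a (injK F V b x) = if a = b then x else 0 := by
  have h : (pr F V a) ∘ₗ (inj F V b) = if a = b then LinearMap.id else 0 := by
    refine LinearMap.ext fun x => ?_
    rw [LinearMap.comp_apply, pr_inj]
    split_ifs <;> rfl
  have h1 : prK F V a (injK F V b x) =
      ((pr F V a) ∘ₗ (inj F V b)).baseChange (AlgebraicClosure F) x := by
    rw [LinearMap.baseChange_comp]
    rfl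
  rw [h1, h]
  split_ifs
  · rw [LinearMap.baseChange_id]
    rfl
  · rw [LinearMap.baseChange_zero]
    rfl

theorem injK_prK (y : AlgebraicClosure F ⊗[F] (V × V)) :
    injK F V false (prK F V false y) + injK F V true (prK F V true y) = y := by
  have h : (inj F V false) ∘ₗ (pr F V false) + (inj F V true) ∘ₗ (pr F V true) =
      LinearMap.id := LinearMap.ext fun x => inj_pr x
  have h1 : injK F V false (prK F V false y) + injK F V true (prK F V true y) =
      ((inj F V false) ∘ₗ (pr F V false) + (inj F V true) ∘ₗ (pr F V true)).baseChange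
        (AlgebraicClosure F) y := by
    rw [LinearMap.baseChange_add, LinearMap.baseChange_comp, LinearMap.baseChange_comp]
    rfl
  rw [h1, h, LinearMap.baseChange_id]
  rfl

theorem prK_cmp (a : Bool) (c : Module.End F (V × V)) (y : AlgebraicClosure F ⊗[F] (V × V)) :
    prK F V a (c.baseChange (AlgebraicClosure F) y) =
      (cmp a false c).baseChange (AlgebraicClosure F) (prK F V false y) +
      (cmp a true c).baseChange (AlgebraicClosure F) (prK F V true y) := by
  have h : pr F V a ∘ₗ c = (cmp a false c) ∘ₗ (pr F V false) + (cmp a true c) ∘ₗ (pr F V true) := by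
    refine LinearMap.ext fun x => ?_
    have h1 := congrArg (fun t => pr F V a (c t)) (inj_pr (F := F) x)
    simp only [map_add] at h1
    exact h1.symm
  have h1 : prK F V a (c.baseChange (AlgebraicClosure F) y) =
      (pr F V a ∘ₗ c).baseChange (AlgebraicClosure F) y := by
    rw [LinearMap.baseChange_comp]
    rfl
  rw [h1, h, LinearMap.baseChange_add, LinearMap.baseChange_comp, LinearMap.baseChange_comp]
  rfl

theorem prK_prodMap (a : Bool) (X : Module.End F V) (y : AlgebraicClosure F ⊗[F] (V × V)) :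
    prK F V a ((X.prodMap X).baseChange (AlgebraicClosure F) y) =
      X.baseChange (AlgebraicClosure F) (prK F V a y) := by
  have h : pr F V a ∘ₗ (X.prodMap X) = X ∘ₗ pr F V a := by
    cases a <;> rfl
  have h1 : prK F V a ((X.prodMap X).baseChange (AlgebraicClosure F) y) =
      (pr F V a ∘ₗ (X.prodMap X)).baseChange (AlgebraicClosure F) y := by
    rw [LinearMap.baseChange_comp]
    rfl
  rw [h1, h, LinearMap.baseChange_comp]
  rfl

/-- `y` is determined by its components -/
private theorem eq_of_prK {y y' : AlgebraicClosure F ⊗[F] (V × V)}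
    (h : ∀ a, prK F V a y = prK F V a y') : y = y' := by
  rw [← injK_prK F V y, ← injK_prK F V y', h, h]

/-- a matrix unit over `K` -/
private theorem unitK (a b : Bool) (X : Module.End F V) (y : AlgebraicClosure F ⊗[F] (V × V)) :
    (inj F V a ∘ₗ X ∘ₗ pr F V b : Module.End F (V × V)).baseChange (AlgebraicClosure F) y =
      injK F V a (X.baseChange (AlgebraicClosure F) (prK F V b y)) := by
  rw [LinearMap.baseChange_comp, LinearMap.baseChange_comp]
  rfl

/-- generalized eigenvectors -/
private theorem prK_pow (a : Bool) (X : Module.End F V) (z : AlgebraicClosure F) (k : ℕ)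
    (y : AlgebraicClosure F ⊗[F] (V × V)) :
    prK F V a ((((X.prodMap X).baseChange (AlgebraicClosure F) - z • 1) ^ k) y) =
      ((X.baseChange (AlgebraicClosure F) - z • 1) ^ k) (prK F V a y) := by
  induction k generalizing y with
  | zero => rfl
  | succ k ih =>
    rw [pow_succ, pow_succ, Module.End.mul_apply, Module.End.mul_apply, ih]
    congr 1
    rw [LinearMap.sub_apply, LinearMap.sub_apply, map_sub, prK_prodMap, LinearMap.smul_apply,
      LinearMap.smul_apply, map_smul]
    rfl

end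

variable {Γ : Type} [Group Γ] [TopologicalSpace Γ] {F : Type} [Field F]
  [TopologicalSpace F] [ContinuousAdd F] {V : Type} [AddCommGroup V] [Module F V]
  (ρ : FormRep Γ F V)

private theorem mem_wt (γ : Γ) (z : AlgebraicClosure F)
    (κ' : Module.End F (V × V) → AlgebraicClosure F) (y : AlgebraicClosure F ⊗[F] (V × V)) :
    y ∈ Wt (dbl ρ) γ z κ' ↔
      (∃ k : ℕ, ((((ρ.T γ).prodMap (ρ.T γ)).baseChange (AlgebraicClosure F) - z • 1) ^ k) y = 0) ∧
      ∀ c, CenSkew ρ c → (c.prodMap c).baseChange (AlgebraicClosure F) y =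
        κ' (c.prodMap c) • y := by
  show y ∈ (_ ⊓ _ : Submodule _ _) ↔ _
  rw [Submodule.mem_inf, Module.End.mem_maxGenEigenspace, Submodule.mem_iInf]
  refine and_congr Iff.rfl ⟨fun h c hc => ?_, fun h c => ?_⟩
  · exact Module.End.mem_eigenspace_iff.mp (h ⟨c.prodMap c, (central_dbl ρ _).mpr ⟨c, hc, rfl⟩⟩)
  · obtain ⟨c', hc'⟩ := c
    obtain ⟨c, hc, rfl⟩ := (central_dbl ρ _).mp hc'
    exact Module.End.mem_eigenspace_iff.mpr (h c hc)

omit [ContinuousAdd F] in
private theorem mem_wtF (γ : Γ) (z : AlgebraicClosure F)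
    (κ : Module.End F V → AlgebraicClosure F) (y : AlgebraicClosure F ⊗[F] V) :
    y ∈ WtF ρ γ z κ ↔
      (∃ k : ℕ, (((ρ.T γ).baseChange (AlgebraicClosure F) - z • 1) ^ k) y = 0) ∧
      ∀ c, CenSkew ρ c → c.baseChange (AlgebraicClosure F) y = κ c • y := by
  show y ∈ (_ ⊓ _ : Submodule _ _) ↔ _
  rw [Submodule.mem_inf, Module.End.mem_maxGenEigenspace, Submodule.mem_iInf]
  refine and_congr Iff.rfl ⟨fun h c hc => ?_, fun h c => ?_⟩
  · exact Module.End.mem_eigenspace_iff.mp (h ⟨c, hc⟩)
  · exact Module.End.mem_eigenspace_iff.mpr (h c.1 c.2)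

theorem wt_dbl (γ : Γ) (z : AlgebraicClosure F) (κ' : Module.End F (V × V) → AlgebraicClosure F)
    (y : AlgebraicClosure F ⊗[F] (V × V)) :
    y ∈ Wt (dbl ρ) γ z κ' ↔ ∀ a, prK F V a y ∈ WtF ρ γ z fun c => κ' (c.prodMap c) := by
  rw [mem_wt]
  simp only [mem_wtF]
  constructor
  · rintro ⟨⟨k, hk⟩, h2⟩ a
    refine ⟨⟨k, ?_⟩, fun c hc => ?_⟩
    · rw [← prK_pow, hk, map_zero]
    · rw [← prK_prodMap, h2 c hc, map_smul]
  · intro h
    refine ⟨?_, fun c hc => ?_⟩
    · obtain ⟨k, hk⟩ := (h false).1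
      obtain ⟨m, hm⟩ := (h true).1
      refine ⟨k + m, eq_of_prK F V fun a => ?_⟩
      rw [prK_pow, map_zero]
      cases a
      · rw [add_comm, pow_add, Module.End.mul_apply, hk, map_zero]
      · rw [pow_add, Module.End.mul_apply, hm, map_zero]
    · refine eq_of_prK F V fun a => ?_
      rw [prK_prodMap, (h a).2 c hc, map_smul]

theorem dual_dbl (γ : Γ) (z : AlgebraicClosure F) (κ' : Module.End F (V × V) → AlgebraicClosure F)
    (z₂ : AlgebraicClosure F) (κ₂' : Module.End F (V × V) → AlgebraicClosure F) :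
    Ctl.Dual (dbl ρ) γ z κ' z₂ κ₂' ↔
      DualF ρ γ z (fun c => κ' (c.prodMap c)) z₂ fun c => κ₂' (c.prodMap c) := by
  refine and_congr Iff.rfl ⟨fun h c hc => h _ ((central_dbl ρ _).mpr ⟨c, hc, rfl⟩),
    fun h c' hc' => ?_⟩
  obtain ⟨c, hc, rfl⟩ := (central_dbl ρ _).mp hc'
  exact h c hc

omit [ContinuousAdd F] in
private theorem inCom_zero : InCom ρ (0 : Module.End F V) :=
  ⟨⊤, fun γ _ => by rw [zero_mul, mul_zero]⟩

omit [ContinuousAdd F] in
private theorem inCom_one : InCom ρ (LinearMap.id : Module.End F V) :=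
  ⟨⊤, fun _ _ => rfl⟩

/-- the matrix units are in the commutant -/
private theorem commF_unit (a b : Bool) {c : Module.End F V} (hc : InCom ρ c) :
    CommF (dbl ρ) (inj F V a ∘ₗ c ∘ₗ pr F V b) := by
  refine (commF_dbl ρ _).mpr fun a' b' => ?_
  rw [cmp_unit]
  split_ifs
  · exact hc
  · exact inCom_zero ρ

/-- the inclusion of the first factor -/
private theorem inj_mem_iff (γ : Γ) (z : AlgebraicClosure F)
    (κ' : Module.End F (V × V) → AlgebraicClosure F) (x : AlgebraicClosure F ⊗[F] V) :
    injK F V false x ∈ Wt (dbl ρ) γ z κ' ↔ x ∈ WtF ρ γ z fun c => κ' (c.prodMap c) := by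
  rw [wt_dbl]
  constructor
  · intro h
    have h1 := h false
    rw [prK_injK, if_pos rfl] at h1
    exact h1
  · intro h a
    rw [prK_injK]
    split_ifs
    · exact h
    · exact Submodule.zero_mem _

private theorem ne_bot_iff (γ : Γ) (z : AlgebraicClosure F)
    (κ' : Module.End F (V × V) → AlgebraicClosure F) :
    Wt (dbl ρ) γ z κ' ≠ ⊥ ↔ WtF ρ γ z (fun c => κ' (c.prodMap c)) ≠ ⊥ := by
  refine not_congr ⟨fun h => ?_, fun h => ?_⟩
  · rw [eq_bot_iff]
    intro x hx
    have h1 := (inj_mem_iff ρ γ z κ' x).mpr hx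
    rw [h, Submodule.mem_bot] at h1
    have h2 := prK_injK F V false false x
    rw [h1, map_zero, if_pos rfl] at h2
    exact h2.symm
  · rw [eq_bot_iff]
    intro y hy
    refine eq_of_prK F V fun a => ?_
    have h1 := (wt_dbl ρ γ z κ' y).mp hy a
    rw [h, Submodule.mem_bot] at h1
    rw [h1, map_zero]

theorem isolated_dbl (γ : Γ) (z : AlgebraicClosure F)
    (κ' : Module.End F (V × V) → AlgebraicClosure F) :
    Isolated (dbl ρ) γ z κ' ↔ IsolatedF ρ γ z fun c => κ' (c.prodMap c) := by
  refine and_congr (not_congr (dual_dbl ρ γ z κ' z κ')) (and_congr ⟨fun h N hN hNs => ?_,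
    fun h N' hN' hNs => ?_⟩ ⟨fun h => ?_, fun h => ?_⟩)
  · -- from the double to `ρ`
    have h1 := h (N.comap (prK F V false) ⊓ N.comap (prK F V true)) (by
      intro y hy
      refine (wt_dbl ρ γ z κ' y).mpr fun a => hN ?_
      cases a
      · exact hy.1
      · exact hy.2) (by
      intro c hc y hy
      have h2 : ∀ a, prK F V a (c.baseChange (AlgebraicClosure F) y) ∈ N := by
        intro a
        rw [prK_cmp]
        exact N.add_mem (hNs _ ((commF_dbl ρ c).mp hc a false) _ hy.1)
          (hNs _ ((commF_dbl ρ c).mp hc a true) _ hy.2)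
      exact ⟨h2 false, h2 true⟩)
    have h3 : ∀ x, injK F V false x ∈ (N.comap (prK F V false) ⊓ N.comap (prK F V true)) ↔
        x ∈ N := by
      intro x
      rw [Submodule.mem_inf, Submodule.mem_comap, Submodule.mem_comap, prK_injK, prK_injK,
        if_pos rfl, if_neg (by decide)]
      exact and_iff_left N.zero_mem
    rcases h1 with h1 | h1
    · left
      rw [eq_bot_iff]
      intro x hx
      have h4 := (h3 x).mpr hx
      rw [h1, Submodule.mem_bot] at h4
      have h2 := prK_injK F V false false x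
      rw [h4, map_zero, if_pos rfl] at h2
      exact h2.symm
    · right
      refine le_antisymm hN fun x hx => (h3 x).mp ?_
      rw [h1]
      exact (inj_mem_iff ρ γ z κ' x).mpr hx
  · -- from `ρ` to the double
    have h1 := h (N'.comap (injK F V false)) (by
      intro x hx
      exact (inj_mem_iff ρ γ z κ' x).mp (hN' hx)) (by
      intro c hc x hx
      have h2 := hNs _ (commF_unit ρ false false hc) _ hx
      rw [unitK, prK_injK, if_pos rfl] at h2
      exact h2)
    have h3 : ∀ y ∈ N', ∀ a, prK F V a y ∈ N'.comap (injK F V false) := by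
      intro y hy a
      have h2 := hNs _ (commF_unit ρ false a (inCom_one ρ)) _ hy
      rw [unitK, LinearMap.baseChange_id] at h2
      exact h2
    have h4 : ∀ y, (∀ a, prK F V a y ∈ N'.comap (injK F V false)) → y ∈ N' := by
      intro y hy
      rw [← injK_prK F V y]
      refine N'.add_mem (hy false) ?_
      have h2 := hNs _ (commF_unit ρ true false (inCom_one ρ)) _ (hy true)
      rw [unitK, LinearMap.baseChange_id, prK_injK, if_pos rfl] at h2
      exact h2
    rcases h1 with h1 | h1
    · left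
      rw [eq_bot_iff]
      intro y hy
      refine eq_of_prK F V fun a => ?_
      have h2 := h3 y hy a
      rw [h1, Submodule.mem_bot] at h2
      rw [h2, map_zero]
    · right
      refine le_antisymm hN' fun y hy => h4 y fun a => ?_
      rw [h1]
      exact (wt_dbl ρ γ z κ' y).mp hy a
  · -- relations, from the double to `ρ`
    intro z₂ κ₂ z₃ κ₃ z₄ κ₄ hW₂ hW₃ hW₄ hsum N hN hprod
    have hc : ∀ κ₂ : Module.End F V → AlgebraicClosure F,
        (fun c : Module.End F V => κ₂ (cmp false false (c.prodMap c))) = κ₂ := by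
      intro κ₂
      funext c
      rw [cmp_prodMap, if_pos rfl]
    have hd : ∀ z₂ κ₂, Ctl.Dual (dbl ρ) γ z κ' z₂ (fun c => κ₂ (cmp false false c)) →
        DualF ρ γ z (fun c => κ' (c.prodMap c)) z₂ κ₂ := by
      intro z₂ κ₂ h1
      have h2 := (dual_dbl ρ γ z κ' z₂ _).mp h1
      rw [hc] at h2
      exact h2
    have hw : ∀ z₂ κ₂, WtF ρ γ z₂ κ₂ ≠ ⊥ →
        Wt (dbl ρ) γ z₂ (fun c => κ₂ (cmp false false c)) ≠ ⊥ := by
      intro z₂ κ₂ h1
      rw [ne_bot_iff, hc]
      exact h1
    refine (h z₂ (fun c => κ₂ (cmp false false c)) z₃ (fun c => κ₃ (cmp false false c)) z₄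
      (fun c => κ₄ (cmp false false c)) (hw _ _ hW₂) (hw _ _ hW₃) (hw _ _ hW₄) (fun c' hc' => ?_)
      N hN hprod).imp (hd _ _) (Or.imp (hd _ _) (hd _ _))
    obtain ⟨c, hcc, rfl⟩ := (central_dbl ρ _).mp hc'
    rw [cmp_prodMap, if_pos rfl]
    exact hsum c hcc
  · -- relations, from `ρ` to the double
    intro z₂ κ₂ z₃ κ₃ z₄ κ₄ hW₂ hW₃ hW₄ hsum N hN hprod
    exact (h z₂ _ z₃ _ z₄ _ ((ne_bot_iff ρ γ z₂ κ₂).mp hW₂) ((ne_bot_iff ρ γ z₃ κ₃).mp hW₃)
      ((ne_bot_iff ρ γ z₄ κ₄).mp hW₄)
      (fun c hc => hsum _ ((central_dbl ρ _).mpr ⟨c, hc, rfl⟩)) N hN hprod).imp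
      (dual_dbl ρ γ z κ' z₂ κ₂).mpr (Or.imp (dual_dbl ρ γ z κ' z₃ κ₃).mpr
        (dual_dbl ρ γ z κ' z₄ κ₄).mpr)

end Pool.Agent.Lib.MP_640417_ag.Fr
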