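import Pool.Agent.Lib.MP_640417_ag.Fr.Main
import Pool.Agent.Lib.MP_640417_ag.Glob.Comm
import Pool.Agent.Lib.MP_640417_ag.Dfr.Der

/-!
# MP_640417_ag, Fr: the derived algebra of the Lefschetz Lie algebra and its center
-/

set_option autoImplicit false

namespace Pool.Agent.Lib.MP_640417_ag.Fr

open Matrix Module Pool.Agent.Lib.MP_640417_ag.Glob
  Pool.Agent.Lib.MP_640417_ag.Ctl Pool.Agent.Lib.MP_640417_ag.Ty
  Pool.Agent.Lib.MP_640417_ag.Gen4 Pool.Agent.Lib.MP_640417_ag.Uni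

variable (l : ℕ) [Fact l.Prime] {Γ : Type} [Group Γ]
    [TopologicalSpace Γ] [IsTopologicalGroup Γ] [CompactSpace Γ] {V : Type} [AddCommGroup V]
    [Module ℚ_[l] V] [FiniteDimensional ℚ_[l] V] (ρ : FormRep Γ ℚ_[l] V)

/-- A Lefschetz element which commutes with all Lefschetz elements is in the commutant. -/
theorem lie_center {Z : Module.End ℚ_[l] V} (hZ : ∀ X, Lef ρ X → Z * X = X * Z) :
    InCom ρ Z := by
  obtain ⟨R, h1, h2, h3⟩ := exists_coord (dbl ρ) (Module.finBasis ℚ_[l] (V × V))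
  obtain ⟨U, hU⟩ := comm_open R l (norm_l l) (l_ne l)
  refine ⟨U, fun γ hγ => ?_⟩
  have hb : ∀ A ∈ R.Hh l, A * LinearMap.toMatrix (Module.finBasis ℚ_[l] (V × V))
      (Module.finBasis ℚ_[l] (V × V)) (Z.prodMap Z) =
      LinearMap.toMatrix (Module.finBasis ℚ_[l] (V × V))
      (Module.finBasis ℚ_[l] (V × V)) (Z.prodMap Z) * A := by
    intro A hA
    obtain ⟨X', rfl⟩ := (LinearMap.toMatrix (Module.finBasis ℚ_[l] (V × V))
      (Module.finBasis ℚ_[l] (V × V))).surjective A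
    have h4 : Lefschetz (dbl ρ) X' := (lef_coord l (dbl ρ) _ R h1 h3 X').mpr
      ⟨hA.1, fun c hc => Hh_comm_C R l (norm_l l) (l_ne l) hA hc⟩
    obtain ⟨X, hX, rfl⟩ := (lef_dbl ρ X').mp h4
    rw [← LinearMap.toMatrix_mul, ← LinearMap.toMatrix_mul]
    congr 1
    refine LinearMap.ext fun x => Prod.ext ?_ ?_
    · exact (LinearMap.congr_fun (hZ X hX) x.1).symm
    · exact (LinearMap.congr_fun (hZ X hX) x.2).symm
  have h4 := hU _ hb γ hγ
  rw [h1, ← LinearMap.toMatrix_mul, ← LinearMap.toMatrix_mul] at h4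
  have h5 := (LinearMap.toMatrix (Module.finBasis ℚ_[l] (V × V))
      (Module.finBasis ℚ_[l] (V × V))).injective h4
  refine LinearMap.ext fun x => ?_
  exact (congrArg Prod.fst (LinearMap.congr_fun h5 (x, 0))).symm

/-- Commutators of Lefschetz elements kill all Tate forms. -/
theorem der_form (hsemi : Semisimple ρ) (h : LefF ρ 2) (i : ℕ)
    (f : MultilinearMap ℚ_[l] (fun _ : Fin (2 * i) => V) ℚ_[l]) (hf : TateF ρ i f)
    {X Y : Module.End ℚ_[l] V} (hX : Lef ρ X) (hY : Lef ρ Y) (v : Fin (2 * i) → V) :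
    DF (X * Y - Y * X) f v = 0 := by
  obtain ⟨R, h1, h2, h3⟩ := exists_coord (dbl ρ) (Module.finBasis ℚ_[l] (V × V))
  have hs := coord_semi (dbl ρ) _ R h1 (semi_dbl ρ hsemi)
  have hm : ∀ X, Lef ρ X → LinearMap.toMatrix (Module.finBasis ℚ_[l] (V × V))
      (Module.finBasis ℚ_[l] (V × V)) (X.prodMap X) ∈ Hp R l := by
    intro X hX
    have hL : Lefschetz (dbl ρ) (X.prodMap X) := (lef_dbl ρ _).mpr ⟨X, hX, rfl⟩
    exact mem_of_four l (dbl ρ) _ R h1 h2 h3 hs _ hL.2 fun x hx hz =>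
      lef_dbl_of_form l ρ hsemi h 4 2 x hx hz _ hL
  rcases isEmpty_or_nonempty (Fin (finrank ℚ_[l] (V × V))) with hI | hI
  · have h4 : X * Y - Y * X = 0 := by
      refine LinearMap.ext fun x => ?_
      have h5 : ((x, 0) : V × V) = 0 := by
        have h6 := (Module.finBasis ℚ_[l] (V × V)).sum_repr (x, (0 : V))
        rw [Finset.univ_eq_empty, Finset.sum_empty] at h6
        exact h6.symm
      have h7 : x = 0 := (Prod.mk.inj h5).1
      rw [h7, map_zero, map_zero]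
    rw [h4, df_zero]
  · obtain ⟨A, hA, Z, hZ, hAZ⟩ := Submodule.mem_sup.mp (hm X hX)
    obtain ⟨A', hA', Z', hZ', hAZ'⟩ := Submodule.mem_sup.mp (hm Y hY)
    have e1 : A * Z' = Z' * A := Hh_comm_C R l (norm_l l) (l_ne l) hA hZ'.1
    have e2 : A' * Z = Z * A' := Hh_comm_C R l (norm_l l) (l_ne l) hA' hZ.1
    have e3 : Z * Z' = Z' * Z := hZ.2.1 Z' hZ'.1
    have h4 : LinearMap.toMatrix (Module.finBasis ℚ_[l] (V × V))
        (Module.finBasis ℚ_[l] (V × V)) ((X * Y - Y * X).prodMap (X * Y - Y * X)) =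
        A * A' - A' * A := by
      have h5 : (X * Y - Y * X).prodMap (X * Y - Y * X) =
          X.prodMap X * Y.prodMap Y - Y.prodMap Y * X.prodMap X := by
        refine LinearMap.ext fun x => Prod.ext ?_ ?_ <;> rfl
      rw [h5, map_sub, LinearMap.toMatrix_mul, LinearMap.toMatrix_mul, ← hAZ, ← hAZ']
      simp only [add_mul, mul_add]
      rw [e1, e2, e3]
      abel
    have h6 := kill_hh l (norm_l l) (l_ne l) ρ _ R h1 h2 i f hf v _
      (Hh_lie R l (norm_l l) (l_ne l) hA hA')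
    rw [← h4, cm_toMatrix, cmp_prodMap, if_pos rfl] at h6
    exact h6

end Pool.Agent.Lib.MP_640417_ag.Fr
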