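import Pool.Agent.Lib.MP_640417_ag.Fr.Dbl

/-!
# MP_640417_ag, Fr, module CommD (200 lines): commutant, center and Lefschetz Lie algebra of the doubled representation

`cmp a b c` (`a b : Bool`) is the component of `c : End (V × V)`: `pr a ∘ c ∘ inj b`, `pr false = fst`, `pr true = snd`, `inj false = inl`,
`inj true = inr`. `T' γ = (T γ).prodMap (T γ)` satisfies `pr a ∘ T' γ = T γ ∘ pr a`, `T' γ ∘ inj b = inj b ∘ T γ`.
* `cmp_ext`: `c x = ∑ a, b, inj a (cmp a b c (pr b x))`.
* `commF_dbl`: componentwise (for `←` intersect the four open subgroups).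
* `central_dbl`: the matrix units `inj a ∘ c ∘ pr b` with `c` in the commutant are in the commutant of the doubled representation
  (`commF_dbl`). If `z'` commutes with all `inj a ∘ pr b` then all `cmp a b z' = 0` for `a ≠ b` and `cmp a a z'` does not depend on `a`, so
  `z' = z.prodMap z`; `z` is in the commutant, it commutes with the commutant (test with `inj a ∘ c ∘ pr a`); skew:
  `dblForm (z' (x, 0)) (0, y) + dblForm (x, 0) (z' (0, y)) = B (z x, y) + B (x, z y)`. Conversely `z.prodMap z` commutes with
  everything whose components commute with `z`, and it is skew by the formula for `dblForm`.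
* `lef_dbl`: the same argument (without `z'` in the commutant).
-/

set_option autoImplicit false

namespace Pool.Agent.Lib.MP_640417_ag.Fr

open Pool.Agent.Lib.MP_640417_ag.Ty Pool.Agent.Lib.MP_640417_ag.Ctl

section

variable {F : Type} [Field F] {V : Type} [AddCommGroup V] [Module F V]

/-- the projections -/
def pr (F V : Type) [Field F] [AddCommGroup V] [Module F V] (a : Bool) : V × V →ₗ[F] V :=
  if a then LinearMap.snd F V V else LinearMap.fst F V V

/-- the inclusions -/
def inj (F V : Type) [Field F] [AddCommGroup V] [Module F V] (a : Bool) : V →ₗ[F] V × V :=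
  if a then LinearMap.inr F V V else LinearMap.inl F V V

/-- the components -/
def cmp (a b : Bool) (c : Module.End F (V × V)) : Module.End F V := pr F V a ∘ₗ c ∘ₗ inj F V b

theorem pr_inj (a b : Bool) (x : V) : pr F V a (inj F V b x) = if a = b then x else 0 := by
  cases a <;> cases b <;> simp [pr, inj]

theorem inj_pr (x : V × V) : inj F V false (pr F V false x) + inj F V true (pr F V true x) = x := by
  ext <;> simp [pr, inj]

theorem cmp_ext {c d : Module.End F (V × V)} (h : ∀ a b, cmp a b c = cmp a b d) : c = d := by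
  refine LinearMap.prod_ext ?_ ?_
  · refine LinearMap.ext fun x => Prod.ext ?_ ?_
    · exact LinearMap.congr_fun (h false false) x
    · exact LinearMap.congr_fun (h true false) x
  · refine LinearMap.ext fun x => Prod.ext ?_ ?_
    · exact LinearMap.congr_fun (h false true) x
    · exact LinearMap.congr_fun (h true true) x

theorem cmp_mul (a b : Bool) (c d : Module.End F (V × V)) :
    cmp a b (c * d) = cmp a false c * cmp false b d + cmp a true c * cmp true b d := by
  refine LinearMap.ext fun x => ?_
  show pr F V a (c (d (inj F V b x))) =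
    pr F V a (c (inj F V false (pr F V false (d (inj F V b x))))) +
      pr F V a (c (inj F V true (pr F V true (d (inj F V b x)))))
  rw [← map_add, ← map_add, inj_pr]

theorem cmp_prodMap (a b : Bool) (X : Module.End F V) :
    cmp a b (X.prodMap X) = if a = b then X else 0 := by
  refine LinearMap.ext fun x => ?_
  cases a <;> cases b <;> simp [cmp, pr, inj]

theorem cmp_unit (a b a' b' : Bool) (X : Module.End F V) :
    cmp a b (inj F V a' ∘ₗ X ∘ₗ pr F V b') = if a = a' ∧ b = b' then X else 0 := by
  refine LinearMap.ext fun x => ?_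
  cases a <;> cases b <;> cases a' <;> cases b' <;> simp [cmp, pr, inj]

private theorem cmp_mulr (a b : Bool) (c : Module.End F (V × V)) (X : Module.End F V) :
    cmp a b (c * X.prodMap X) = cmp a b c * X := by
  rw [cmp_mul, cmp_prodMap, cmp_prodMap]
  cases b <;> simp

private theorem cmp_mull (a b : Bool) (c : Module.End F (V × V)) (X : Module.End F V) :
    cmp a b (X.prodMap X * c) = X * cmp a b c := by
  rw [cmp_mul, cmp_prodMap, cmp_prodMap]
  cases a <;> simp

/-- an endomorphism which commutes with the matrix units -/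
private theorem eq_prodMap {X' : Module.End F (V × V)}
    (h : ∀ a b, X' * (inj F V a ∘ₗ (1 : Module.End F V) ∘ₗ pr F V b) =
      (inj F V a ∘ₗ (1 : Module.End F V) ∘ₗ pr F V b) * X') :
    X' = (cmp false false X').prodMap (cmp false false X') := by
  have h1 : ∀ a b p q, (if q = b then cmp p a X' else 0) = if p = a then cmp b q X' else 0 := by
    intro a b p q
    have h2 := congrArg (cmp p q) (h a b)
    rw [cmp_mul, cmp_mul, cmp_unit, cmp_unit, cmp_unit, cmp_unit] at h2
    revert h2
    cases a <;> cases b <;> cases p <;> cases q <;> simp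
  have h3 : cmp true false X' = 0 := by
    have h4 := h1 false false true false
    rw [if_pos rfl, if_neg (by decide)] at h4
    exact h4
  have h5 : cmp false true X' = 0 := by
    have h4 := h1 false false false true
    rw [if_neg (by decide), if_pos rfl] at h4
    exact h4.symm
  have h6 : cmp false false X' = cmp true true X' := by
    have h4 := h1 false true false true
    rw [if_pos rfl, if_pos rfl] at h4
    exact h4
  refine cmp_ext fun a b => ?_
  rw [cmp_prodMap]
  cases a <;> cases b
  · rw [if_pos rfl]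
  · rw [if_neg (by decide), h5]
  · rw [if_neg (by decide), h3]
  · rw [if_pos rfl, h6]

end

variable {Γ : Type} [Group Γ] [TopologicalSpace Γ] {F : Type} [Field F]
  [TopologicalSpace F] [ContinuousAdd F] {V : Type} [AddCommGroup V] [Module F V]
  (ρ : FormRep Γ F V)

theorem commF_dbl (c : Module.End F (V × V)) :
    CommF (dbl ρ) c ↔ ∀ a b, InCom ρ (cmp a b c) := by
  constructor
  · rintro ⟨U, hU⟩ a b
    refine ⟨U, fun γ hγ => ?_⟩
    rw [← cmp_mulr, ← cmp_mull, ← dbl_T, hU γ hγ]
  · intro h
    obtain ⟨U1, h1⟩ := h false false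
    obtain ⟨U2, h2⟩ := h false true
    obtain ⟨U3, h3⟩ := h true false
    obtain ⟨U4, h4⟩ := h true true
    refine ⟨U1 ⊓ U2 ⊓ (U3 ⊓ U4), fun γ hγ => ?_⟩
    refine cmp_ext fun a b => ?_
    rw [dbl_T, cmp_mulr, cmp_mull]
    cases a <;> cases b
    · exact h1 γ hγ.1.1
    · exact h2 γ hγ.1.2
    · exact h3 γ hγ.2.1
    · exact h4 γ hγ.2.2

omit [ContinuousAdd F] in
private theorem inCom_ite (p : Prop) [Decidable p] {c : Module.End F V} (h : InCom ρ c) :
    InCom ρ (if p then c else 0) := by
  split_ifs
  · exact h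
  · exact ⟨⊤, fun γ _ => by rw [zero_mul, mul_zero]⟩

omit [ContinuousAdd F] in
private theorem inCom_one : InCom ρ (1 : Module.End F V) :=
  ⟨⊤, fun γ _ => by rw [one_mul, mul_one]⟩

theorem lef_dbl (X' : Module.End F (V × V)) :
    Lefschetz (dbl ρ) X' ↔ ∃ X, Lef ρ X ∧ X' = X.prodMap X := by
  constructor
  · rintro ⟨hc, hs⟩
    have h1 := eq_prodMap (X' := X') (fun a b => hc _ ((commF_dbl ρ _).2 fun p q => by
      rw [cmp_unit]
      exact inCom_ite ρ _ (inCom_one ρ)))
    refine ⟨cmp false false X', ⟨fun c hcc => ?_, fun x y => ?_⟩, h1⟩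
    · have h2 := congrArg (cmp false false) (hc (c.prodMap c) ((commF_dbl ρ _).2 fun p q => by
        rw [cmp_prodMap]
        exact inCom_ite ρ _ hcc))
      rw [cmp_mulr, cmp_mull] at h2
      exact h2
    · have h2 := hs (x, 0) (0, y)
      rw [h1] at h2
      generalize cmp false false X' = X at h2
      rw [dbl_form, dbl_form] at h2
      simpa using h2
  · rintro ⟨X, ⟨hc, hs⟩, rfl⟩
    refine ⟨fun c hcc => cmp_ext fun a b => ?_, fun x y => ?_⟩
    · rw [cmp_mulr, cmp_mull]
      exact hc _ ((commF_dbl ρ c).1 hcc a b)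
    · rw [dbl_form, dbl_form]
      show ρ.form (X x.1) y.2 - ρ.form y.1 (X x.2) +
        (ρ.form x.1 (X y.2) - ρ.form (X y.1) x.2) = 0
      have h1 := hs x.1 y.2
      have h2 := hs y.1 x.2
      linear_combination h1 - h2

theorem central_dbl (z' : Module.End F (V × V)) :
    CentralSkew (dbl ρ) z' ↔ ∃ z, CenSkew ρ z ∧ z' = z.prodMap z := by
  constructor
  · rintro ⟨h1, h2⟩
    obtain ⟨z, hz, rfl⟩ := (lef_dbl ρ z').1 h2
    have h3 := (commF_dbl ρ _).1 h1 false false
    rw [cmp_prodMap, if_pos rfl] at h3
    exact ⟨z, ⟨h3, hz.1, hz.2⟩, rfl⟩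
  · rintro ⟨z, ⟨h1, h2, h3⟩, rfl⟩
    refine ⟨(commF_dbl ρ _).2 fun a b => ?_, (lef_dbl ρ _).2 ⟨z, ⟨h2, h3⟩, rfl⟩⟩
    rw [cmp_prodMap]
    exact inCom_ite ρ _ h1

end Pool.Agent.Lib.MP_640417_ag.Fr
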