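import Pool.Agent.Lib.MP_640417_ag.Fr.Defs
import Pool.Agent.Lib.MP_640417_ag.Ty.Defs
import Pool.Agent.Lib.MP_640417_ag.Ctl.Defs
import Pool.Agent.Lib.MP_640417_ag.Four.Defs

/-!
# MP_640417_ag, Fr, module Dbl: the doubled representation

`V × V` with the alternating form `⟨x, y⟩ = B (x.1, y.2) - B (y.1, x.2)`. It is nondegenerate: take `y = (y1, 0)` and `y = (0, y2)`.
-/

set_option autoImplicit false

namespace Pool.Agent.Lib.MP_640417_ag.Fr

open Module TensorProduct Pool.Agent.Lib.MP_640417_ag.Frob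

section

variable {F : Type} [Field F] {V : Type} [AddCommGroup V] [Module F V]

/-- the alternating form on `V × V` -/
noncomputable def dblForm (B : LinearMap.BilinForm F V) : LinearMap.BilinForm F (V × V) :=
  B.compl₁₂ (LinearMap.fst F V V) (LinearMap.snd F V V) -
    (B.compl₁₂ (LinearMap.fst F V V) (LinearMap.snd F V V)).flip

theorem dblForm_apply (B : LinearMap.BilinForm F V) (x y : V × V) :
    dblForm B x y = B x.1 y.2 - B y.1 x.2 := rfl

end

variable {Γ : Type} [Group Γ] [TopologicalSpace Γ] {F : Type} [Field F]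
  [TopologicalSpace F] {V : Type} [AddCommGroup V] [Module F V]

/-- the doubled representation -/
noncomputable def dbl [ContinuousAdd F] (ρ : FormRep Γ F V) : H1Rep Γ F (V × V) where
  T := {
    toFun := fun γ => (ρ.T γ).prodMap (ρ.T γ)
    map_one' := by
      rw [map_one]
      rfl
    map_mul' := fun γ δ => by
      rw [map_mul]
      rfl }
  χ := ρ.χ
  continuous_coeff f x := by
    have h1 := ρ.continuous_coeff (f ∘ₗ LinearMap.inl F V V) x.1
    have h2 := ρ.continuous_coeff (f ∘ₗ LinearMap.inr F V V) x.2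
    refine (h1.add h2).congr fun γ => ?_
    show f (ρ.T γ x.1, 0) + f (0, ρ.T γ x.2) = f (ρ.T γ x.1, ρ.T γ x.2)
    rw [← map_add]
    congr 1
    ext <;> simp
  form := dblForm ρ.form
  form_alt x := by
    rw [dblForm_apply, sub_self]
  form_nondeg x h := by
    have h1 : x.1 = 0 := by
      refine ρ.form_nondeg _ fun y => ?_
      have h2 := h (0, y)
      rw [dblForm_apply, map_zero, LinearMap.zero_apply, sub_zero] at h2
      exact h2
    have h3 : x.2 = 0 := by
      refine ρ.form_nondeg' _ fun y => ?_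
      have h2 := h (y, 0)
      rw [dblForm_apply, map_zero, zero_sub, neg_eq_zero] at h2
      exact h2
    exact Prod.ext h1 h3
  form_equivariant γ x y := by
    show dblForm ρ.form (ρ.T γ x.1, ρ.T γ x.2) (ρ.T γ y.1, ρ.T γ y.2) = _
    rw [dblForm_apply, dblForm_apply]
    show ρ.form (ρ.T γ x.1) (ρ.T γ y.2) - ρ.form (ρ.T γ y.1) (ρ.T γ x.2) = _
    rw [ρ.form_equivariant, ρ.form_equivariant, mul_sub]

variable [ContinuousAdd F] (ρ : FormRep Γ F V)

theorem dbl_T (γ : Γ) : (dbl ρ).T γ = (ρ.T γ).prodMap (ρ.T γ) := rfl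

theorem dbl_form (x y : V × V) : (dbl ρ).form x y = ρ.form x.1 y.2 - ρ.form y.1 x.2 := rfl

end Pool.Agent.Lib.MP_640417_ag.Fr
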