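import Mathlib

/-!
# MP_640417_ag, Fr: representations with a nondegenerate pairing

`V = H^j(X)` for a smooth projective variety `X` (or a part of it), `Γ` a Galois group, the form is the Poincaré duality
pairing (composed with a power of the Lefschetz operator), `χ` a power of the cyclotomic character. Or `V` is the sum
of all `H^j(X)(j/2)`, `χ = 1`, `Γ` the Galois group of a finite extension, over which half of a Tate twist exists.
-/

set_option autoImplicit false

namespace Pool.Agent.Lib.MP_640417_ag.Fr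

open Module TensorProduct

/-- A continuous representation `T` of `Γ` on `V` with a nondegenerate pairing, which `Γ` multiplies by the
character `χ⁻¹`. -/
structure FormRep (Γ : Type) [Group Γ] [TopologicalSpace Γ] (F : Type) [Field F]
    [TopologicalSpace F] (V : Type) [AddCommGroup V] [Module F V] where
  /-- The action of `Γ` on `V`. -/
  T : Γ →* Module.End F V
  /-- The character. -/
  χ : Γ →* Fˣ
  /-- The matrix coefficients are continuous. -/
  continuous_coeff : ∀ (f : Module.Dual F V) (x : V), Continuous fun γ => f (T γ x)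
  /-- The pairing. -/
  form : LinearMap.BilinForm F V
  /-- The pairing is nondegenerate on the left. -/
  form_nondeg : ∀ x, (∀ y, form x y = 0) → x = 0
  /-- The pairing is nondegenerate on the right. -/
  form_nondeg' : ∀ y, (∀ x, form x y = 0) → y = 0
  /-- The pairing has multiplier `χ⁻¹`. -/
  form_equivariant : ∀ γ x y, form (T γ x) (T γ y) = ((χ γ)⁻¹ : Fˣ).val * form x y

variable {Γ : Type} [Group Γ] [TopologicalSpace Γ] {F : Type} [Field F]
  [TopologicalSpace F] {V : Type} [AddCommGroup V] [Module F V]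

/-- Every stable subspace has a stable complement. -/
def Semisimple (ρ : FormRep Γ F V) : Prop :=
  ∀ W : Submodule F V, (∀ γ, ∀ y ∈ W, ρ.T γ y ∈ W) →
    ∃ W' : Submodule F V, (∀ γ, ∀ y ∈ W', ρ.T γ y ∈ W') ∧ IsCompl W W'

/-- The commutant: `c` commutes with an open subgroup. -/
def InCom (ρ : FormRep Γ F V) (c : Module.End F V) : Prop :=
  ∃ U : OpenSubgroup Γ, ∀ γ ∈ U, c * ρ.T γ = ρ.T γ * c

/-- The commutant over `K`. -/
def InComK (ρ : FormRep Γ F V)
    (c : Module.End (AlgebraicClosure F) (AlgebraicClosure F ⊗[F] V)) : Prop :=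
  ∃ U : OpenSubgroup Γ, ∀ γ ∈ U, c * (ρ.T γ).baseChange (AlgebraicClosure F) =
    (ρ.T γ).baseChange (AlgebraicClosure F) * c

/-- `X` is skew for the form. -/
def Skew (ρ : FormRep Γ F V) (X : Module.End F V) : Prop :=
  ∀ x y, ρ.form (X x) y + ρ.form x (X y) = 0

/-- The skew elements of the center of the commutant. -/
def CenSkew (ρ : FormRep Γ F V) (z : Module.End F V) : Prop :=
  InCom ρ z ∧ (∀ c, InCom ρ c → z * c = c * z) ∧ Skew ρ z

/-- The Lefschetz Lie algebra: the skew elements which commute with the commutant. -/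
def Lef (ρ : FormRep Γ F V) (X : Module.End F V) : Prop :=
  (∀ c, InCom ρ c → X * c = c * X) ∧ Skew ρ X

/-- A Tate form in `2 i` variables: an open subgroup multiplies it by `χ ^ (-i)`. -/
def TateF (ρ : FormRep Γ F V) (i : ℕ) (f : MultilinearMap F (fun _ : Fin (2 * i) => V) F) :
    Prop :=
  ∃ U : OpenSubgroup Γ, ∀ γ ∈ U, ∀ v, (ρ.χ γ : F) ^ i * f (fun j => ρ.T γ (v j)) = f v

/-- The derivative of the multilinear form `f` in the direction `X`. -/
def DF (X : Module.End F V) {k : ℕ} (f : MultilinearMap F (fun _ : Fin k => V) F)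
    (v : Fin k → V) : F :=
  ∑ j, f (Function.update v j (X (v j)))

/-- Every Tate form in `2 i` variables which is killed by the central skew elements is killed by the Lefschetz Lie
algebra. -/
def LefF (ρ : FormRep Γ F V) (i : ℕ) : Prop :=
  ∀ f, TateF ρ i f → (∀ z, CenSkew ρ z → ∀ v, DF z f v = 0) →
    ∀ X, Lef ρ X → ∀ v, DF X f v = 0

/-- The weight space of `(z, κ)`: generalized eigenvectors of `γ` for `z`, on which the central skew elements
`c` act by `κ c`. -/
noncomputable def WtF (ρ : FormRep Γ F V) (γ : Γ) (z : AlgebraicClosure F)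
    (κ : Module.End F V → AlgebraicClosure F) :
    Submodule (AlgebraicClosure F) (AlgebraicClosure F ⊗[F] V) :=
  Module.End.maxGenEigenspace ((ρ.T γ).baseChange (AlgebraicClosure F)) z ⊓
    ⨅ c : {c : Module.End F V // CenSkew ρ c},
      Module.End.eigenspace (c.1.baseChange (AlgebraicClosure F)) (κ c.1)

/-- The weights `(z, κ)` and `(z', κ')` are dual. -/
def DualF (ρ : FormRep Γ F V) (γ : Γ) (z : AlgebraicClosure F)
    (κ : Module.End F V → AlgebraicClosure F) (z' : AlgebraicClosure F)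
    (κ' : Module.End F V → AlgebraicClosure F) : Prop :=
  z * z' = algebraMap F (AlgebraicClosure F) ((ρ.χ γ)⁻¹ : Fˣ).val ∧
    ∀ c, CenSkew ρ c → κ c + κ' c = 0

/-- The weight `(z, κ)` is isolated: it is not its own dual, the commutant acts irreducibly on the weight
space, and `(z, κ)` occurs in no nontrivial relation between four weights. -/
def IsolatedF (ρ : FormRep Γ F V) (γ : Γ) (z : AlgebraicClosure F)
    (κ : Module.End F V → AlgebraicClosure F) : Prop :=
  ¬ DualF ρ γ z κ z κ ∧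
  (∀ N : Submodule (AlgebraicClosure F) (AlgebraicClosure F ⊗[F] V), N ≤ WtF ρ γ z κ →
    (∀ c, InCom ρ c → ∀ y ∈ N, c.baseChange (AlgebraicClosure F) y ∈ N) →
    N = ⊥ ∨ N = WtF ρ γ z κ) ∧
  ∀ z₂ κ₂ z₃ κ₃ z₄ κ₄, WtF ρ γ z₂ κ₂ ≠ ⊥ → WtF ρ γ z₃ κ₃ ≠ ⊥ → WtF ρ γ z₄ κ₄ ≠ ⊥ →
    (∀ c, CenSkew ρ c → κ c + κ₂ c + κ₃ c + κ₄ c = 0) → ∀ N : ℕ, 0 < N →
    (z * z₂ * z₃ * z₄) ^ N = (algebraMap F (AlgebraicClosure F) ((ρ.χ γ)⁻¹ : Fˣ).val) ^ (2 * N) →
      DualF ρ γ z κ z₂ κ₂ ∨ DualF ρ γ z κ z₃ κ₃ ∨ DualF ρ γ z κ z₄ κ₄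

/-- `γ` commutes with the commutant, all weights which are not their own duals are isolated, and an element of the
Lefschetz Lie algebra (over `K`) which vanishes on all their weight spaces is zero. -/
def GoodF (ρ : FormRep Γ F V) (γ : Γ) : Prop :=
  (∀ c, InCom ρ c → c * ρ.T γ = ρ.T γ * c) ∧
  (∀ z κ, WtF ρ γ z κ ≠ ⊥ → ¬ DualF ρ γ z κ z κ → IsolatedF ρ γ z κ) ∧
  ∀ X ∈ Submodule.span (AlgebraicClosure F)
      {X : Module.End (AlgebraicClosure F) (AlgebraicClosure F ⊗[F] V) |
        ∃ Y, Lef ρ Y ∧ X = Y.baseChange (AlgebraicClosure F)},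
    (∀ z κ, ¬ DualF ρ γ z κ z κ → ∀ y ∈ WtF ρ γ z κ, X y = 0) → X = 0

/-- `γ` is semisimple and commutes with the commutant, and an element of the commutant over `K` which vanishes on all
isolated weight spaces annihilates the Lefschetz Lie algebra. -/
def DetectsF (ρ : FormRep Γ F V) (γ : Γ) : Prop :=
  (∀ c, InCom ρ c → c * ρ.T γ = ρ.T γ * c) ∧ (ρ.T γ).IsSemisimple ∧
  ∀ c, InComK ρ c → (∀ z κ, IsolatedF ρ γ z κ → ∀ y ∈ WtF ρ γ z κ, c y = 0) →
    ∀ X, Lef ρ X → c * X.baseChange (AlgebraicClosure F) = 0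

end Pool.Agent.Lib.MP_640417_ag.Fr
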