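import Pool.Agent.Lib.MP_640417_ag.Fr.WtD
import Pool.Agent.Lib.MP_640417_ag.Uni.Defs

/-!
# MP_640417_ag, Fr, module DetFD (200 lines): detecting elements of the doubled representation

By `wt_dbl`, `isolated_dbl` (`Fr/WtD.lean`). Every `κ` is `c ↦ κ' (c.prodMap c)` for `κ' c' = κ (cmp false false c')` (`cmp_prodMap`).
* first part: as in `good_dbl`.
* `(T γ).prodMap (T γ)` is semisimple if and only if `T γ` is: over a perfect field (or in general) an endomorphism of a finite
  dimensional space is semisimple if and only if it is killed by a squarefree polynomial (`Module.End.isSemisimple_of_squarefree_aeval_eq_zero`,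
  `Module.End.IsSemisimple.minpoly_squarefree`), and `aeval (T.prodMap T) p = (aeval T p).prodMap (aeval T p)`.
* third part: `c : End_K (K ⊗ (V × V))` has the components `c_ab = prK a ∘ c ∘ injK b`, `CommK (dbl ρ) c` if and only if all `InComK ρ c_ab`; `c`
  vanishes on the isolated weight spaces of `dbl ρ` if and only if all `c_ab` do for `ρ`; the components of
  `c * (X.prodMap X).baseChange` are `c_ab * X.baseChange`; `lef_dbl`. For `→` use `c' = injK false ∘ c ∘ prK false`.
-/

set_option autoImplicit false

namespace Pool.Agent.Lib.MP_640417_ag.Fr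

open TensorProduct Pool.Agent.Lib.MP_640417_ag.Ty Pool.Agent.Lib.MP_640417_ag.Ctl
  Pool.Agent.Lib.MP_640417_ag.Uni

variable {Γ : Type} [Group Γ] [TopologicalSpace Γ] {F : Type} [Field F]
  [TopologicalSpace F] [ContinuousAdd F] {V : Type} [AddCommGroup V] [Module F V]
  [FiniteDimensional F V] (ρ : FormRep Γ F V)

omit [TopologicalSpace Γ] [TopologicalSpace F] [ContinuousAdd F] [FiniteDimensional F V] in
private theorem DF_injK_prodMap (b : Bool) (X : Module.End F V) (x : AlgebraicClosure F ⊗[F] V) :
    (X.prodMap X).baseChange (AlgebraicClosure F) (injK F V b x) =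
      injK F V b (X.baseChange (AlgebraicClosure F) x) := by
  have h : (X.prodMap X) ∘ₗ inj F V b = inj F V b ∘ₗ X := by
    cases b
    · apply LinearMap.ext
      intro v
      simp [inj]
    · apply LinearMap.ext
      intro v
      simp [inj]
  have h2 := congrArg (fun f => (LinearMap.baseChange (AlgebraicClosure F) f) x) h
  simp only [LinearMap.baseChange_comp, LinearMap.comp_apply] at h2
  exact h2

omit [FiniteDimensional F V] in
private theorem DF_comm (γ : Γ) :
    (∀ c, CommF (dbl ρ) c → c * (dbl ρ).T γ = (dbl ρ).T γ * c) ↔
      ∀ c, InCom ρ c → c * ρ.T γ = ρ.T γ * c := by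
  rw [dbl_T]
  constructor
  · intro h c hc
    have h0 : InCom ρ (0 : Module.End F V) := by
      obtain ⟨U, _⟩ := hc
      exact ⟨U, fun γ _ => by rw [zero_mul, mul_zero]⟩
    have h1 : CommF (dbl ρ) (inj F V false ∘ₗ c ∘ₗ pr F V false) := by
      rw [commF_dbl]
      intro a b
      rw [cmp_unit]
      split_ifs
      · exact hc
      · exact h0
    have h2 := congrArg (cmp false false) (h _ h1)
    rw [cmp_mul, cmp_mul] at h2
    simp only [cmp_unit, cmp_prodMap] at h2
    simpa using h2
  · intro h c hc
    rw [commF_dbl] at hc
    apply cmp_ext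
    intro a b
    rw [cmp_mul, cmp_mul]
    simp only [cmp_prodMap]
    cases a <;> cases b <;> simp [h _ (hc _ _)]

private noncomputable def DF_D (F V : Type) [Field F] [AddCommGroup V] [Module F V] :
    Module.End F V →ₐ[F] Module.End F (V × V) :=
  (LinearMap.prodMapAlgHom F V V).comp (AlgHom.prod (AlgHom.id F _) (AlgHom.id F _))

omit [TopologicalSpace Γ] [TopologicalSpace F] [ContinuousAdd F] [FiniteDimensional F V] in
private theorem DF_D_apply (X : Module.End F V) : DF_D F V X = X.prodMap X := rfl

omit [TopologicalSpace Γ] [TopologicalSpace F] [ContinuousAdd F] in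
private theorem DF_semi (X : Module.End F V) :
    Module.End.IsSemisimple (X.prodMap X) ↔ Module.End.IsSemisimple X := by
  have hinj : ∀ Y : Module.End F V, DF_D F V Y = 0 → Y = 0 := by
    intro Y hY
    rw [DF_D_apply] at hY
    have h := congrArg (cmp false false) hY
    rw [cmp_prodMap, if_pos rfl] at h
    rw [h]
    apply LinearMap.ext
    intro v
    simp [cmp]
  rw [← DF_D_apply]
  constructor
  · intro h
    refine Module.End.isSemisimple_of_squarefree_aeval_eq_zero h.minpoly_squarefree ?_
    apply hinj
    rw [← Polynomial.aeval_algHom_apply]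
    exact minpoly.aeval _ _
  · intro h
    refine Module.End.isSemisimple_of_squarefree_aeval_eq_zero h.minpoly_squarefree ?_
    rw [Polynomial.aeval_algHom_apply, minpoly.aeval, map_zero]

theorem detects_dbl (γ : Γ) : Detects1 (dbl ρ) γ ↔ DetectsF ρ γ := by
  unfold Detects1 DetectsF
  refine and_congr (DF_comm ρ γ) (and_congr ?_ ?_)
  · rw [dbl_T]
    exact DF_semi _
  · constructor
    · intro h c hc hv X hX
      have h1 : CommK (dbl ρ) (injK F V false ∘ₗ c ∘ₗ prK F V false) := by
        obtain ⟨U, hU⟩ := hc
        refine ⟨U, fun δ hδ => ?_⟩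
        rw [dbl_T]
        apply LinearMap.ext
        intro y
        show injK F V false (c (prK F V false (((ρ.T δ).prodMap (ρ.T δ)).baseChange
          (AlgebraicClosure F) y))) = ((ρ.T δ).prodMap (ρ.T δ)).baseChange
          (AlgebraicClosure F) (injK F V false (c (prK F V false y)))
        rw [prK_prodMap, DF_injK_prodMap]
        exact congrArg (injK F V false) (LinearMap.congr_fun (hU δ hδ) (prK F V false y))
      have h2 := h _ h1 (fun z κ' hi y hy => by
        rw [isolated_dbl] at hi
        rw [wt_dbl] at hy
        show injK F V false (c (prK F V false y)) = 0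
        rw [hv z _ hi _ (hy false), map_zero]) (X.prodMap X) ((lef_dbl ρ _).mpr ⟨X, hX, rfl⟩)
      apply LinearMap.ext
      intro x
      have h3 := congrArg (prK F V false) (LinearMap.congr_fun h2 (injK F V false x))
      have h4 : prK F V false (injK F V false (c (prK F V false ((X.prodMap X).baseChange
          (AlgebraicClosure F) (injK F V false x))))) = 0 := by
        rw [show injK F V false (c (prK F V false ((X.prodMap X).baseChange
          (AlgebraicClosure F) (injK F V false x)))) = 0 from LinearMap.congr_fun h2
            (injK F V false x), map_zero]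
      rw [prK_injK, if_pos rfl, prK_prodMap, prK_injK, if_pos rfl] at h4
      exact h4
    · intro h c hc hv X' hX'
      obtain ⟨X, hX, rfl⟩ := (lef_dbl ρ _).mp hX'
      have key : ∀ a b : Bool, (prK F V a ∘ₗ c ∘ₗ injK F V b) *
          X.baseChange (AlgebraicClosure F) = 0 := by
        intro a b
        refine h _ ?_ ?_ X hX
        · obtain ⟨U, hU⟩ := hc
          refine ⟨U, fun δ hδ => ?_⟩
          apply LinearMap.ext
          intro x
          have h1 := LinearMap.congr_fun (hU δ hδ) (injK F V b x)
          rw [dbl_T] at h1
          have h2 : c (((ρ.T δ).prodMap (ρ.T δ)).baseChange (AlgebraicClosure F)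
            (injK F V b x)) = ((ρ.T δ).prodMap (ρ.T δ)).baseChange (AlgebraicClosure F)
            (c (injK F V b x)) := h1
          show prK F V a (c (injK F V b ((ρ.T δ).baseChange (AlgebraicClosure F) x))) =
            (ρ.T δ).baseChange (AlgebraicClosure F) (prK F V a (c (injK F V b x)))
          rw [← DF_injK_prodMap, h2, prK_prodMap]
        · intro z κ hi y hy
          have hκ : (fun d : Module.End F V => (fun c' : Module.End F (V × V) =>
              κ (cmp false false c')) (d.prodMap d)) = κ := by
            funext d
            show κ (cmp false false (d.prodMap d)) = κ d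
            rw [cmp_prodMap, if_pos rfl]
          have h1 : Isolated (dbl ρ) γ z (fun c' : Module.End F (V × V) =>
              κ (cmp false false c')) := by
            rw [isolated_dbl, hκ]
            exact hi
          have h2 : injK F V b y ∈ Wt (dbl ρ) γ z (fun c' : Module.End F (V × V) =>
              κ (cmp false false c')) := by
            rw [wt_dbl, hκ]
            intro a'
            rw [prK_injK]
            split_ifs
            · exact hy
            · exact Submodule.zero_mem _
          show prK F V a (c (injK F V b y)) = 0
          rw [hv z _ h1 _ h2, map_zero]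
      have key2 : ∀ a b (x : AlgebraicClosure F ⊗[F] V),
          prK F V a (c (injK F V b (X.baseChange (AlgebraicClosure F) x))) = 0 :=
        fun a b x => LinearMap.congr_fun (key a b) x
      have key3 : ∀ b (x : AlgebraicClosure F ⊗[F] V),
          c (injK F V b (X.baseChange (AlgebraicClosure F) x)) = 0 := by
        intro b x
        rw [← injK_prK F V (c (injK F V b (X.baseChange (AlgebraicClosure F) x))), key2, key2,
          map_zero, map_zero, add_zero]
      apply LinearMap.ext
      intro y
      show c ((X.prodMap X).baseChange (AlgebraicClosure F) y) = 0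
      rw [← injK_prK F V y, map_add, DF_injK_prodMap, DF_injK_prodMap, map_add, key3, key3,
        add_zero]

end Pool.Agent.Lib.MP_640417_ag.Fr
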