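import Pool.Agent.Lib.MP_640417_ag.Fr.Defs
import Pool.Agent.Lib.MP_640417_ag.Orth.Ml
import Pool.Agent.Lib.MP_640417_ag.Orth.DefsA

/-!
# MP_640417_ag, Fr, module EvenA (200 lines): symmetric forms, scalar commutant

* `dm_prods`: `Dm X f = 0` for `f ∈ Prods` and `X` skew: by linearity (`Dm` is linear in `f`, `Submodule.span_induction`) for `IsPairing` and
  `IsPairingDet`. With `Dm_apply`: `f v = ∏ a, form (v (e (inl a))) (v (e (inr a)))`: the sum over the variables `j = e (inl a)` and
  `j = e (inr a)` is `(∏ over the other pairs) * (form (X x) y + form x (X y)) = 0`. With a determinant: the part of the determinant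
  variables gives `trace X * det`, and `trace X = 0` for skew `X` (char 0: `X` is adjoint to `- X`, so they have the same trace;
  `Basis.det` derivative: `∑ a, b.det (update w a (X (w a))) = trace X * b.det w`, for example by
  `LinearMap.trace`, `AlternatingMap` of top degree: both sides are alternating in `w`, compare at `w = b`, or differentiate
  `b.det ((1 + t X) w) = det (1 + t X) * b.det w`).
* `toF`: `χ = 1`.
* `cen_toF`: `z` is a scalar, skew: `2 r form x y = 0`.
* `lefF_toF`: `TateF (toF ρ) 2 f` is `TateForm ρ.T f` (`χ = 1`), `Mf F V 4` is the type of forms in `2 * 2` variables, and `DF X f v = Dm X f v`.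
-/

set_option autoImplicit false

namespace Pool.Agent.Lib.MP_640417_ag.Fr

open Module Pool.Agent.Lib.MP_640417_ag.Orth

section

variable {F : Type} [Field F] [CharZero F] {V : Type} [AddCommGroup V] [Module F V]
  [FiniteDimensional F V]

theorem trace_skew (form : LinearMap.BilinForm F V) (hsym : ∀ x y, form x y = form y x)
    (hnd : ∀ x, (∀ y, form x y = 0) → x = 0) (X : Module.End F V)
    (hX : ∀ x y, form (X x) y + form x (X y) = 0) : LinearMap.trace F V X = 0 := by
  have hinj : Function.Injective form := by
    refine (injective_iff_map_eq_zero form).2 fun x hx => hnd x fun y => ?_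
    rw [hx, LinearMap.zero_apply]
  let φ : V ≃ₗ[F] Module.Dual F V := LinearEquiv.ofInjectiveOfFinrankEq form hinj
    (Subspace.dual_finrank_eq).symm
  have hφ : ∀ x, φ x = form x := fun x => rfl
  have h1 : φ.conj X = - Module.Dual.transpose (R := F) X := by
    refine LinearMap.ext fun l => ?_
    obtain ⟨x, rfl⟩ := φ.surjective l
    rw [LinearEquiv.conj_apply_apply, LinearEquiv.symm_apply_apply]
    refine LinearMap.ext fun y => ?_
    rw [hφ, hφ, LinearMap.neg_apply, LinearMap.neg_apply]
    exact eq_neg_of_add_eq_zero_left (hX x y)
  have h2 := LinearMap.trace_conj' X φ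
  have h4 := (LinearMap.trace F (Module.Dual F V)).map_neg (Module.Dual.transpose (R := F) X)
  rw [h1] at h2
  rw [h2, LinearMap.trace_transpose'] at h4
  have h3 : (2 : F) * LinearMap.trace F V X = 0 := by
    linear_combination h4
  exact (mul_eq_zero.1 h3).resolve_left two_ne_zero

omit [CharZero F] [FiniteDimensional F V] in
private theorem det_upd {N : ℕ} (b : Basis (Fin N) F V) (i : Fin N) (y : V) :
    b.det (Function.update b i y) = b.repr y i := by
  have h : b.det.toMultilinearMap.toLinearMap b i = b.coord i := by
    refine b.ext fun j => ?_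
    rw [MultilinearMap.toLinearMap_apply, Basis.coord_apply, Basis.repr_self]
    by_cases hij : i = j
    · subst hij
      rw [Function.update_eq_self, Finsupp.single_eq_same]
      exact b.det_self
    · rw [Finsupp.single_eq_of_ne hij]
      refine b.det.map_eq_zero_of_eq _ (i := i) (j := j) ?_ hij
      rw [Function.update_self, Function.update_of_ne (Ne.symm hij)]
  have h2 := LinearMap.congr_fun h y
  rw [MultilinearMap.toLinearMap_apply, Basis.coord_apply] at h2
  exact h2

theorem det_der (b : Basis (Fin (finrank F V)) F V) (X : Module.End F V)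
    (w : Fin (finrank F V) → V) :
    ∑ a, b.det (Function.update w a (X (w a))) = LinearMap.trace F V X * b.det w := by
  let A : V [⋀^Fin (finrank F V)]→ₗ[F] F :=
    { toMultilinearMap := Dm X b.det.toMultilinearMap
      map_eq_zero_of_eq' := by
        intro v i j hv hij
        change Dm X b.det.toMultilinearMap v = 0
        rw [Dm_apply, ← Finset.add_sum_erase Finset.univ _ (Finset.mem_univ i),
          ← Finset.add_sum_erase (Finset.univ.erase i) _
            (Finset.mem_erase.2 ⟨Ne.symm hij, Finset.mem_univ j⟩)]
        rw [Finset.sum_eq_zero, add_zero]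
        · have h1 : Function.update v j (X (v j)) =
              Function.update v i (X (v i)) ∘ Equiv.swap i j := by
            funext l
            by_cases hl : l = i
            · subst hl
              rw [Function.comp_apply, Equiv.swap_apply_left, Function.update_of_ne hij,
                Function.update_of_ne (Ne.symm hij), hv]
            · by_cases hl' : l = j
              · subst hl'
                rw [Function.comp_apply, Equiv.swap_apply_right, Function.update_self,
                  Function.update_self, hv]
              · rw [Function.comp_apply, Equiv.swap_apply_of_ne_of_ne hl hl',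
                  Function.update_of_ne hl', Function.update_of_ne hl]
          rw [h1]
          change b.det _ + b.det _ = 0
          rw [b.det.map_swap _ hij, add_neg_cancel]
        · intro l hl
          have hlj := Finset.ne_of_mem_erase hl
          have hli := Finset.ne_of_mem_erase (Finset.mem_of_mem_erase hl)
          refine b.det.map_eq_zero_of_eq _ (i := i) (j := j) ?_ hij
          rw [Function.update_of_ne (Ne.symm hli), Function.update_of_ne (Ne.symm hlj), hv] }
  have hA : ∀ v, A v = ∑ a, b.det (Function.update v a (X (v a))) := fun v =>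
    Dm_apply X b.det.toMultilinearMap v
  have h1 : A b = LinearMap.trace F V X := by
    rw [hA, LinearMap.trace_eq_matrix_trace F b X, Matrix.trace]
    refine Finset.sum_congr rfl fun i _ => ?_
    rw [det_upd, Matrix.diag_apply, LinearMap.toMatrix_apply]
  rw [← hA, ← h1]
  have h2 := A.eq_smul_basis_det b
  have h3 := congrArg (fun g : V [⋀^Fin (finrank F V)]→ₗ[F] F => g w) h2
  exact h3

omit [CharZero F] [FiniteDimensional F V] in
/-- The derivative of a product of pairings in the direction of a skew operator. -/
private theorem prod_der (form : LinearMap.BilinForm F V) (X : Module.End F V)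
    (hX : ∀ x y, form (X x) y + form x (X y) = 0) {k m : ℕ} (p q : Fin m → Fin k)
    (hp : Function.Injective p) (hq : Function.Injective q) (hpq : ∀ a b, p a ≠ q b)
    (v : Fin k → V) :
    ∑ a, ∏ b, form (Function.update v (p a) (X (v (p a))) (p b))
        (Function.update v (p a) (X (v (p a))) (q b)) +
      ∑ a, ∏ b, form (Function.update v (q a) (X (v (q a))) (p b))
        (Function.update v (q a) (X (v (q a))) (q b)) = 0 := by
  rw [← Finset.sum_add_distrib]
  refine Finset.sum_eq_zero fun a _ => ?_
  rw [← Finset.mul_prod_erase Finset.univ _ (Finset.mem_univ a),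
    ← Finset.mul_prod_erase Finset.univ (fun b => form (Function.update v (q a) (X (v (q a))) (p b))
        (Function.update v (q a) (X (v (q a))) (q b))) (Finset.mem_univ a)]
  have h1 : ∏ b ∈ Finset.univ.erase a, form (Function.update v (p a) (X (v (p a))) (p b))
        (Function.update v (p a) (X (v (p a))) (q b)) =
      ∏ b ∈ Finset.univ.erase a, form (v (p b)) (v (q b)) := by
    refine Finset.prod_congr rfl fun b hb => ?_
    rw [Function.update_of_ne (fun h => Finset.ne_of_mem_erase hb (hp h)),
      Function.update_of_ne (Ne.symm (hpq a b))]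
  have h2 : ∏ b ∈ Finset.univ.erase a, form (Function.update v (q a) (X (v (q a))) (p b))
        (Function.update v (q a) (X (v (q a))) (q b)) =
      ∏ b ∈ Finset.univ.erase a, form (v (p b)) (v (q b)) := by
    refine Finset.prod_congr rfl fun b hb => ?_
    rw [Function.update_of_ne (hpq b a),
      Function.update_of_ne (fun h => Finset.ne_of_mem_erase hb (hq h))]
  rw [h1, h2, ← add_mul, Function.update_self, Function.update_self,
    Function.update_of_ne (Ne.symm (hpq a a)), Function.update_of_ne (hpq a a), hX, zero_mul]

theorem dm_prods (form : LinearMap.BilinForm F V) (hsym : ∀ x y, form x y = form y x)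
    (hnd : ∀ x, (∀ y, form x y = 0) → x = 0) (X : Module.End F V)
    (hX : ∀ x y, form (X x) y + form x (X y) = 0) {k : ℕ} (f : Mf F V k)
    (hf : f ∈ Prods form k) : Dm X f = 0 := by
  refine Submodule.span_induction (p := fun f _ => Dm X f = 0) ?_ (Dm_zero_form X)
    (fun f g _ _ h1 h2 => by rw [Dm_add_form, h1, h2, add_zero]) (fun r f _ h1 => ?_) hf
  · rintro f (⟨m, e, h⟩ | ⟨b, m, e, h⟩)
    · ext v
      rw [Dm_apply, ← e.sum_comp, Fintype.sum_sum_type]
      simp only [h]
      exact prod_der form X hX (fun a => e (Sum.inl a)) (fun a => e (Sum.inr a))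
        (fun a b hab => Sum.inl_injective (e.injective hab))
        (fun a b hab => Sum.inr_injective (e.injective hab))
        (fun a b hab => Sum.inl_ne_inr (e.injective hab)) v
    · ext v
      rw [Dm_apply, ← e.sum_comp, Fintype.sum_sum_type, Fintype.sum_sum_type]
      simp only [h]
      have h1 : ∀ (a : Fin (finrank F V)) (c : Fin m ⊕ Fin m) (x : V),
          Function.update v (e (Sum.inl a)) x (e (Sum.inr c)) = v (e (Sum.inr c)) :=
        fun a c x => Function.update_of_ne (fun hac => Sum.inr_ne_inl (e.injective hac)) _ _
      have h2 : ∀ (a : Fin (finrank F V)) (c : Fin m ⊕ Fin m) (x : V),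
          Function.update v (e (Sum.inr c)) x (e (Sum.inl a)) = v (e (Sum.inl a)) :=
        fun a c x => Function.update_of_ne (fun hac => Sum.inl_ne_inr (e.injective hac)) _ _
      have h3 : ∀ (a : Fin (finrank F V)) (x : V),
          (fun c => Function.update v (e (Sum.inl a)) x (e (Sum.inl c))) =
            Function.update (fun c => v (e (Sum.inl c))) a x := by
        intro a x
        funext c
        by_cases hc : c = a
        · subst hc
          rw [Function.update_self, Function.update_self]
        · rw [Function.update_of_ne hc,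
            Function.update_of_ne (fun hh => hc (Sum.inl_injective (e.injective hh)))]
      simp only [h1, h2, h3]
      rw [← Finset.sum_mul, det_der b X (fun c => v (e (Sum.inl c))),
        trace_skew form hsym hnd X hX, zero_mul, zero_mul, zero_add, ← Finset.mul_sum,
        ← Finset.mul_sum, ← mul_add,
        prod_der form X hX (fun a => e (Sum.inr (Sum.inl a))) (fun a => e (Sum.inr (Sum.inr a)))
        (fun a b hab => Sum.inl_injective (Sum.inr_injective (e.injective hab)))
        (fun a b hab => Sum.inr_injective (Sum.inr_injective (e.injective hab)))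
        (fun a b hab => Sum.inl_ne_inr (Sum.inr_injective (e.injective hab))) v, mul_zero]
      rfl
  · ext v
    rw [Dm_apply]
    have h2 := congrArg (fun g : Mf F V k => g v) h1
    rw [Dm_apply] at h2
    simp only [smul_apply]
    rw [← Finset.smul_sum, h2, zero_apply, smul_zero]

end

section

variable {Γ : Type} [Group Γ] [TopologicalSpace Γ] {F : Type} [Field F]
  [TopologicalSpace F] {V : Type} [AddCommGroup V] [Module F V]

/-- an orthogonal representation as a representation with a form -/
def toF (ρ : OrthRep Γ F V) : FormRep Γ F V where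
  T := ρ.T
  χ := 1
  continuous_coeff := ρ.continuous_coeff
  form := ρ.form
  form_nondeg := ρ.form_nondeg
  form_nondeg' y h := ρ.form_nondeg y fun x => by rw [ρ.form_symm]; exact h x
  form_equivariant γ x y := by
    rw [ρ.form_invariant, MonoidHom.one_apply, inv_one, Units.val_one, one_mul]

variable [CharZero F] (ρ : OrthRep Γ F V)

theorem cen_toF (hsc : ScalarCommutant ρ) (z : Module.End F V) :
    CenSkew (toF ρ) z ↔ z = 0 := by
  constructor
  · rintro ⟨⟨U, hU⟩, -, h3⟩
    obtain ⟨r, rfl⟩ := hsc z ⟨U, hU⟩
    refine LinearMap.ext fun x => ρ.form_nondeg _ fun y => ?_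
    have h4 : ρ.form ((r • (1 : Module.End F V)) x) y +
      ρ.form x ((r • (1 : Module.End F V)) y) = 0 := h3 x y
    rw [LinearMap.smul_apply, LinearMap.smul_apply, Module.End.one_apply, Module.End.one_apply,
      map_smul, map_smul, LinearMap.smul_apply, ← two_mul] at h4
    rw [LinearMap.smul_apply, Module.End.one_apply, map_smul, LinearMap.smul_apply]
    exact (mul_eq_zero.1 h4).resolve_left two_ne_zero
  · rintro rfl
    refine ⟨⟨⊤, fun γ _ => by rw [zero_mul, mul_zero]⟩, fun c _ => by rw [zero_mul, mul_zero],
      fun x y => ?_⟩
    rw [LinearMap.zero_apply, LinearMap.zero_apply, map_zero, map_zero, LinearMap.zero_apply,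
      add_zero]

theorem lef_toF (hsc : ScalarCommutant ρ) (X : Module.End F V) :
    Lef (toF ρ) X ↔ ∀ x y, ρ.form (X x) y + ρ.form x (X y) = 0 := by
  constructor
  · rintro ⟨-, h⟩
    exact h
  · intro h
    refine ⟨fun c hc => ?_, h⟩
    obtain ⟨r, rfl⟩ := hsc c hc
    rw [smul_mul_assoc, mul_smul_comm, one_mul, mul_one]

theorem lefF_toF [FiniteDimensional F V] (hsc : ScalarCommutant ρ)
    (h4 : ∀ f : Mf F V 4, TateForm ρ.T f → f ∈ Prods ρ.form 4) : LefF (toF ρ) 2 := by
  rintro f ⟨U, hU⟩ - X hX v
  have h1 : TateForm ρ.T (k := 4) f := by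
    refine ⟨U, fun γ hγ v => ?_⟩
    have h2 := hU γ hγ v
    have h3 : (((toF ρ).χ γ : Fˣ) : F) = 1 := rfl
    rw [h3, one_pow, one_mul] at h2
    exact h2
  have h2 := dm_prods ρ.form ρ.form_symm ρ.form_nondeg X ((lef_toF ρ hsc X).1 hX) (k := 4) f
    (h4 f h1)
  have h3 := Dm_apply X (k := 4) f v
  rw [h2] at h3
  exact h3.symm

end

end Pool.Agent.Lib.MP_640417_ag.Fr
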