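import Pool.Agent.Lib.MP_640417_ag.Fr.Main
import Pool.Agent.Lib.MP_640417_ag.Fr.EvenA

/-!
# MP_640417_ag, Fr, module EvenB (200 lines): symmetric forms, scalar commutant, good elements

`K = AlgebraicClosure ℚ_[l]`, `ρ' = toF ρ`, `CenSkew ρ' z ↔ z = 0` (`cen_toF`). `good_toF`: let `GoodF ρ' γ`. For `z : K` let `κ = 0`; then
`WtF ρ' γ z 0 = maxGenEigenspace z` (the eigenspace of `0` for `0` is everything), not `⊥` if `z` is a root of the characteristic
polynomial (`Module.End.hasEigenvalue_iff_isRoot_charpoly`-type lemma, `LinearMap.charpoly_baseChange`). `DualF ρ' γ z 0 z₂ 0 ↔ z * z₂ = 1`.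
* If `z` is a root with `z ^ 2 ≠ 1` then `IsolatedF ρ' γ z 0`: irreducible under the commutant (scalars: every subspace of the weight
  space is stable), so `maxGenEigenspace z` has dimension 1, and the root multiplicity of `z` in the characteristic polynomial is
  this dimension (search for `maxGenEigenspace` and `rootMultiplicity`/`charpoly` in the folder, e.g. `kb_nul` in `Gn/KBas.lean`, or in Mathlib:
  `LinearMap.finrank_maxGenEigenspace_eq`). The relations: third part of `IsolatedF` with all `κ_i = 0`.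
* There is a root with `z ^ 2 ≠ 1`: otherwise every weight `(z, κ)` with nonzero weight space has `z ^ 2 = 1` and `κ 0 = 0`
  (a nonzero vector of the weight space), so it is its own dual, so every `X` in the span vanishes on all weight spaces which are not
  their own duals (they are `⊥`), so `X = 0`. But the skew endomorphism `X x = form b x • a - form a x • b` is not zero for linearly
  independent `a, b` (`3 ≤ finrank`), and its base change is not zero.
* `even_dense`: `tfae_form` (`Fr/Main.lean`), `lefF_toF`, `good_toF`. For the Haar measure use `MeasureTheory.Measure.haar` with the Borel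
  σ-algebra (`borel Γ`, `⟨rfl⟩`), or a theorem of `Fr/Main.lean` without a measure.
-/

set_option autoImplicit false

namespace Pool.Agent.Lib.MP_640417_ag.Fr

open Module Polynomial Pool.Agent.Lib.MP_640417_ag.Orth

variable (l : ℕ) [Fact l.Prime] {Γ : Type} [Group Γ]
    [TopologicalSpace Γ] [IsTopologicalGroup Γ] [CompactSpace Γ] {V : Type} [AddCommGroup V]
    [Module ℚ_[l] V] [FiniteDimensional ℚ_[l] V] (ρ : OrthRep Γ ℚ_[l] V)

theorem semi_toF (h : Orth.Semisimple ρ) : Semisimple (toF ρ) := h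

section

variable {l}

omit [IsTopologicalGroup Γ] [CompactSpace Γ] in
private theorem eb_mem (hsc : ScalarCommutant ρ) {γ : Γ} {z : AlgebraicClosure ℚ_[l]}
    {κ : Module.End ℚ_[l] V → AlgebraicClosure ℚ_[l]}
    {y : TensorProduct ℚ_[l] (AlgebraicClosure ℚ_[l]) V} :
    y ∈ WtF (toF ρ) γ z κ ↔
      y ∈ Module.End.maxGenEigenspace ((ρ.T γ).baseChange (AlgebraicClosure ℚ_[l])) z ∧
        κ 0 • y = 0 := by
  unfold WtF
  rw [Submodule.mem_inf, Submodule.mem_iInf]
  refine and_congr Iff.rfl ?_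
  constructor
  · intro h
    have h1 := h ⟨0, (cen_toF ρ hsc 0).2 rfl⟩
    rw [Module.End.mem_eigenspace_iff] at h1
    simp only [LinearMap.baseChange_zero, LinearMap.zero_apply] at h1
    exact h1.symm
  · rintro h ⟨c, hc⟩
    rw [cen_toF ρ hsc] at hc
    subst hc
    rw [Module.End.mem_eigenspace_iff]
    simp only [LinearMap.baseChange_zero, LinearMap.zero_apply]
    exact h.symm

omit [IsTopologicalGroup Γ] [CompactSpace Γ] in
private theorem eb_dual (hsc : ScalarCommutant ρ) {γ : Γ} {z z' : AlgebraicClosure ℚ_[l]}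
    {κ κ' : Module.End ℚ_[l] V → AlgebraicClosure ℚ_[l]} :
    DualF (toF ρ) γ z κ z' κ' ↔ z * z' = 1 ∧ κ 0 + κ' 0 = 0 := by
  unfold DualF
  have h1 : ((((toF ρ).χ γ)⁻¹ : ℚ_[l]ˣ) : ℚ_[l]) = 1 := by
    show ((((1 : Γ →* ℚ_[l]ˣ) γ)⁻¹ : ℚ_[l]ˣ) : ℚ_[l]) = 1
    rw [MonoidHom.one_apply, inv_one, Units.val_one]
  rw [h1, map_one]
  refine and_congr Iff.rfl ?_
  constructor
  · intro h
    exact h 0 ((cen_toF ρ hsc 0).2 rfl)
  · intro h c hc
    rw [cen_toF ρ hsc] at hc
    subst hc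
    exact h

omit [IsTopologicalGroup Γ] [CompactSpace Γ] in
private theorem eb_root {γ : Γ} {z : AlgebraicClosure ℚ_[l]} :
    aeval z (ρ.T γ).charpoly = 0 ↔
      Module.End.HasEigenvalue ((ρ.T γ).baseChange (AlgebraicClosure ℚ_[l])) z := by
  rw [Module.End.hasEigenvalue_iff_isRoot_charpoly, LinearMap.charpoly_baseChange, IsRoot,
    eval_map, aeval_def]

omit [IsTopologicalGroup Γ] [CompactSpace Γ] in
private theorem eb_gen_of_root {γ : Γ} {z : AlgebraicClosure ℚ_[l]}
    (h : aeval z (ρ.T γ).charpoly = 0) :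
    ∃ y, y ≠ 0 ∧ y ∈ Module.End.maxGenEigenspace
      ((ρ.T γ).baseChange (AlgebraicClosure ℚ_[l])) z := by
  rw [eb_root] at h
  obtain ⟨y, hy⟩ := h.exists_hasEigenvector
  refine ⟨y, hy.2, ?_⟩
  rw [Module.End.mem_maxGenEigenspace]
  refine ⟨1, ?_⟩
  rw [pow_one, LinearMap.sub_apply, hy.apply_eq_smul]
  simp

omit [IsTopologicalGroup Γ] [CompactSpace Γ] in
private theorem eb_root_of_gen {γ : Γ} {z : AlgebraicClosure ℚ_[l]}
    {y : TensorProduct ℚ_[l] (AlgebraicClosure ℚ_[l]) V} (hy : y ≠ 0)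
    (h : y ∈ Module.End.maxGenEigenspace
      ((ρ.T γ).baseChange (AlgebraicClosure ℚ_[l])) z) :
    aeval z (ρ.T γ).charpoly = 0 := by
  rw [eb_root, Module.End.hasEigenvalue_iff]
  intro h0
  rw [Module.End.mem_maxGenEigenspace] at h
  obtain ⟨k, hk⟩ := h
  apply hy
  induction k with
  | zero => simpa using hk
  | succ n ih =>
    apply ih
    rw [pow_succ', Module.End.mul_apply] at hk
    have h1 : (((ρ.T γ).baseChange (AlgebraicClosure ℚ_[l]) - z • 1) ^ n) y ∈
        Module.End.eigenspace ((ρ.T γ).baseChange (AlgebraicClosure ℚ_[l])) z := by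
      rw [Module.End.mem_eigenspace_iff, ← sub_eq_zero, ← hk]
      simp
    rw [h0, Submodule.mem_bot] at h1
    exact h1

omit [IsTopologicalGroup Γ] [CompactSpace Γ] in
private theorem eb_iso (hsc : ScalarCommutant ρ) {γ : Γ} {z : AlgebraicClosure ℚ_[l]}
    (hz : aeval z (ρ.T γ).charpoly = 0) (hz2 : z ^ 2 ≠ 1)
    (h : IsolatedF (toF ρ) γ z fun _ => 0) : IsoEig ρ γ z := by
  obtain ⟨-, hirr, hrel⟩ := h
  refine ⟨?_, hz2, ?_⟩
  · obtain ⟨y, hy0, hy⟩ := eb_gen_of_root ρ hz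
    have hyW : y ∈ WtF (toF ρ) γ z fun _ => 0 := (eb_mem ρ hsc).2 ⟨hy, zero_smul _ _⟩
    have h1 := hirr (Submodule.span (AlgebraicClosure ℚ_[l]) {y})
      ((Submodule.span_singleton_le_iff_mem _ _).2 hyW) (by
        intro c hc x hx
        obtain ⟨r, hr⟩ := hsc c hc
        have h2 : c.baseChange (AlgebraicClosure ℚ_[l]) x =
            algebraMap ℚ_[l] (AlgebraicClosure ℚ_[l]) r • x := by
          rw [hr, LinearMap.baseChange_smul, LinearMap.smul_apply, algebraMap_smul]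
          congr 1
          exact LinearMap.congr_fun LinearMap.baseChange_id x
        rw [h2]
        exact Submodule.smul_mem _ _ hx)
    have h3 : Submodule.span (AlgebraicClosure ℚ_[l]) {y} = WtF (toF ρ) γ z fun _ => 0 := by
      rcases h1 with h1 | h1
      · exact absurd (Submodule.span_singleton_eq_bot.1 h1) hy0
      · exact h1
    have h4 : Submodule.span (AlgebraicClosure ℚ_[l]) {y} =
        Module.End.maxGenEigenspace ((ρ.T γ).baseChange (AlgebraicClosure ℚ_[l])) z := by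
      rw [h3]
      ext x
      rw [eb_mem ρ hsc]
      exact ⟨fun hx => hx.1, fun hx => ⟨hx, zero_smul _ _⟩⟩
    rw [← LinearMap.charpoly_baseChange, ← LinearMap.finrank_maxGenEigenspace_eq, ← h4]
    exact finrank_span_singleton hy0
  · intro z₂ z₃ z₄ h2 h3 h4 N hN hzN
    have hne : ∀ {w : AlgebraicClosure ℚ_[l]}, aeval w (ρ.T γ).charpoly = 0 →
        WtF (toF ρ) γ w (fun _ => 0) ≠ ⊥ := by
      intro w hw hbot
      obtain ⟨y, hy0, hy⟩ := eb_gen_of_root ρ hw
      have hyW : y ∈ WtF (toF ρ) γ w fun _ => 0 := (eb_mem ρ hsc).2 ⟨hy, zero_smul _ _⟩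
      rw [hbot, Submodule.mem_bot] at hyW
      exact hy0 hyW
    have h5 := hrel z₂ (fun _ => 0) z₃ (fun _ => 0) z₄ (fun _ => 0) (hne h2) (hne h3) (hne h4)
      (fun c _ => by simp) N hN (by
        have h1 : ((((toF ρ).χ γ)⁻¹ : ℚ_[l]ˣ) : ℚ_[l]) = 1 := by
          show ((((1 : Γ →* ℚ_[l]ˣ) γ)⁻¹ : ℚ_[l]ˣ) : ℚ_[l]) = 1
          rw [MonoidHom.one_apply, inv_one, Units.val_one]
        rw [hzN, h1, map_one, one_pow])
    rw [eb_dual ρ hsc, eb_dual ρ hsc, eb_dual ρ hsc] at h5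
    rcases h5 with h5 | h5 | h5
    · exact Or.inl h5.1
    · exact Or.inr (Or.inl h5.1)
    · exact Or.inr (Or.inr h5.1)

/-- a nonzero skew endomorphism -/
private theorem eb_skew (hdim : 3 ≤ finrank ℚ_[l] V) :
    ∃ X : Module.End ℚ_[l] V, X ≠ 0 ∧ ∀ x y, ρ.form (X x) y + ρ.form x (X y) = 0 := by
  have : Nontrivial V := Module.nontrivial_of_finrank_pos (R := ℚ_[l]) (by omega)
  obtain ⟨a, ha⟩ := exists_ne (0 : V)
  have h1 : ∃ b, b ∉ Submodule.span ℚ_[l] {a} := by
    by_contra hcon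
    push Not at hcon
    have h2 : Submodule.span ℚ_[l] {a} = ⊤ := Submodule.eq_top_iff'.2 hcon
    have h3 := finrank_span_singleton (K := ℚ_[l]) ha
    rw [h2, finrank_top] at h3
    omega
  obtain ⟨b, hb⟩ := h1
  refine ⟨(ρ.form b).smulRight a - (ρ.form a).smulRight b, ?_, ?_⟩
  · intro h0
    have h2 : ∀ x, ρ.form a x = 0 := by
      intro x
      by_contra hx
      have h3 := LinearMap.congr_fun h0 x
      simp only [LinearMap.sub_apply, LinearMap.smulRight_apply, LinearMap.zero_apply] at h3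
      apply hb
      rw [Submodule.mem_span_singleton]
      refine ⟨(ρ.form a x)⁻¹ * ρ.form b x, ?_⟩
      rw [mul_smul, sub_eq_zero.1 h3, smul_smul, inv_mul_cancel₀ hx, one_smul]
    exact ha (ρ.form_nondeg a h2)
  · intro x y
    simp only [LinearMap.sub_apply, LinearMap.smulRight_apply, map_sub, map_smul,
      LinearMap.smul_apply, smul_eq_mul]
    rw [ρ.form_symm x a, ρ.form_symm x b]
    ring

private theorem eb_base {X : Module.End ℚ_[l] V}
    (h : X.baseChange (AlgebraicClosure ℚ_[l]) = 0) : X = 0 := by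
  apply LinearMap.baseChangeHom_injective ℚ_[l] V (AlgebraicClosure ℚ_[l])
  rw [map_zero]
  exact h

end

theorem good_toF (hsc : ScalarCommutant ρ) (hdim : 3 ≤ finrank ℚ_[l] V) {γ : Γ}
    (h : GoodF (toF ρ) γ) :
    (∃ z : AlgebraicClosure ℚ_[l], aeval z (ρ.T γ).charpoly = 0 ∧ z ^ 2 ≠ 1) ∧
      ∀ z : AlgebraicClosure ℚ_[l], aeval z (ρ.T γ).charpoly = 0 → z ^ 2 ≠ 1 → IsoEig ρ γ z := by
  obtain ⟨-, h2, h3⟩ := h
  constructor
  · by_contra hcon
    push Not at hcon
    obtain ⟨X, hX0, hX⟩ := eb_skew ρ hdim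
    apply hX0
    apply eb_base
    refine h3 _ (Submodule.subset_span ⟨X, (lef_toF ρ hsc X).2 hX, rfl⟩) ?_
    intro z κ hd y hy
    by_cases hy0 : y = 0
    · rw [hy0, map_zero]
    · exfalso
      apply hd
      obtain ⟨hy1, hy2⟩ := (eb_mem ρ hsc).1 hy
      have hz := hcon z (eb_root_of_gen ρ hy0 hy1)
      have hκ : κ 0 = 0 := (smul_eq_zero.1 hy2).resolve_right hy0
      rw [eb_dual ρ hsc, hκ, add_zero]
      exact ⟨by rw [← sq, hz], rfl⟩
  · intro z hz hz2
    refine eb_iso ρ hsc hz hz2 (h2 z _ ?_ ?_)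
    · intro hbot
      obtain ⟨y, hy0, hy⟩ := eb_gen_of_root ρ hz
      have hyW : y ∈ WtF (toF ρ) γ z fun _ => 0 := (eb_mem ρ hsc).2 ⟨hy, zero_smul _ _⟩
      rw [hbot, Submodule.mem_bot] at hyW
      exact hy0 hyW
    · rw [eb_dual ρ hsc]
      rintro ⟨h4, -⟩
      exact hz2 (by rw [sq, h4])

theorem even_dense (hss : Orth.Semisimple ρ) (hsc : ScalarCommutant ρ)
    (hdim : 3 ≤ finrank ℚ_[l] V)
    (h4 : ∀ f : Mf ℚ_[l] V 4, TateForm ρ.T f → f ∈ Prods ρ.form 4) (D : Set Γ) (hD : Dense D) :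
    ∃ γ ∈ D, (∃ z : AlgebraicClosure ℚ_[l], aeval z (ρ.T γ).charpoly = 0 ∧ z ^ 2 ≠ 1) ∧
      ∀ z : AlgebraicClosure ℚ_[l], aeval z (ρ.T γ).charpoly = 0 → z ^ 2 ≠ 1 → IsoEig ρ γ z := by
  let _ : MeasurableSpace Γ := borel Γ
  have : BorelSpace Γ := ⟨rfl⟩
  have h1 := ((tfae_form l (toF ρ) (semi_toF l ρ hss)
    (MeasureTheory.Measure.haar : MeasureTheory.Measure Γ)).out 1 2 rfl rfl).1
      (lefF_toF ρ hsc h4) D hD
  obtain ⟨γ, hγ, hg⟩ := h1
  exact ⟨γ, hγ, good_toF l ρ hsc hdim hg⟩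

end Pool.Agent.Lib.MP_640417_ag.Fr
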