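import Pool.Agent.Lib.MP_640417_ag.Fr.WtD
import Pool.Agent.Lib.MP_640417_ag.Uni.Defs

/-!
# MP_640417_ag, Fr, module GoodFD (200 lines): good elements of the doubled representation

By `wt_dbl`, `dual_dbl`, `isolated_dbl` (`Fr/WtD.lean`). Every `κ` is `c ↦ κ' (c.prodMap c)` for `κ' c' = κ (cmp false false c')`
(`cmp_prodMap`).
* first part: `commF_dbl`, `dbl_T` (`c' * T' γ = T' γ * c'` componentwise, `cmp_mul`, `cmp_prodMap`; for `→` use
  `c' = inj false ∘ c ∘ pr false`).
* second part: `Wt (dbl ρ) γ z κ' ≠ ⊥` if and only if `WtF ρ γ z κ ≠ ⊥` (`prK`, `injK`).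
* third part: for `X : End_K (K ⊗ V)` let `D X = ∑ a, injK a ∘ X ∘ prK a`; `D` is linear and injective, `D (Y.baseChange) =
  (Y.prodMap Y).baseChange`, so by `lef_dbl` the span for `dbl ρ` is the image under `D` of the span for `ρ`
  (`Submodule.map_span`). `D X` vanishes on the weight spaces of `dbl ρ` which are not self-dual if and only if `X` vanishes on those
  of `ρ` (`prK a (D X y) = X (prK a y)`, `D X (injK a x) = injK a (X x)`).
-/

set_option autoImplicit false

namespace Pool.Agent.Lib.MP_640417_ag.Fr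

open TensorProduct Pool.Agent.Lib.MP_640417_ag.Ty Pool.Agent.Lib.MP_640417_ag.Ctl
  Pool.Agent.Lib.MP_640417_ag.Uni

section

variable (F V : Type) [Field F] [AddCommGroup V] [Module F V]

/-- the doubling over `K` -/
private noncomputable def gfD :
    Module.End (AlgebraicClosure F) (AlgebraicClosure F ⊗[F] V) →ₗ[AlgebraicClosure F]
      Module.End (AlgebraicClosure F) (AlgebraicClosure F ⊗[F] (V × V)) where
  toFun X := injK F V false ∘ₗ X ∘ₗ prK F V false + injK F V true ∘ₗ X ∘ₗ prK F V true
  map_add' X Y := by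
    rw [LinearMap.add_comp, LinearMap.add_comp, LinearMap.comp_add, LinearMap.comp_add]
    exact add_add_add_comm _ _ _ _
  map_smul' r X := by
    rw [LinearMap.smul_comp, LinearMap.smul_comp, LinearMap.comp_smul, LinearMap.comp_smul,
      RingHom.id_apply, smul_add]

private theorem gfD_apply (X : Module.End (AlgebraicClosure F) (AlgebraicClosure F ⊗[F] V))
    (y : AlgebraicClosure F ⊗[F] (V × V)) :
    gfD F V X y = injK F V false (X (prK F V false y)) + injK F V true (X (prK F V true y)) := rfl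

private theorem gfD_inj (X : Module.End (AlgebraicClosure F) (AlgebraicClosure F ⊗[F] V))
    (x : AlgebraicClosure F ⊗[F] V) :
    gfD F V X (injK F V false x) = injK F V false (X x) := by
  rw [gfD_apply, prK_injK, prK_injK, if_pos rfl, if_neg (by decide), map_zero, map_zero, add_zero]

private theorem gfD_base (Y : Module.End F V) :
    gfD F V (Y.baseChange (AlgebraicClosure F)) =
      (Y.prodMap Y).baseChange (AlgebraicClosure F) := by
  refine LinearMap.ext fun y => ?_
  rw [gfD_apply, ← prK_prodMap, ← prK_prodMap]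
  exact injK_prK F V _

private theorem gfInj_zero {x : AlgebraicClosure F ⊗[F] V} (h : injK F V false x = 0) : x = 0 := by
  have h1 := prK_injK F V false false x
  rw [h, map_zero, if_pos rfl] at h1
  exact h1.symm

end

variable {Γ : Type} [Group Γ] [TopologicalSpace Γ] {F : Type} [Field F]
  [TopologicalSpace F] [ContinuousAdd F] {V : Type} [AddCommGroup V] [Module F V]
  (ρ : FormRep Γ F V)

private theorem gfCom (γ : Γ) : (∀ c, CommF (dbl ρ) c → c * (dbl ρ).T γ = (dbl ρ).T γ * c) ↔
    ∀ c, InCom ρ c → c * ρ.T γ = ρ.T γ * c := by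
  constructor
  · intro h c hc
    have h1 : CommF (dbl ρ) (c.prodMap c) := by
      rw [commF_dbl]
      intro a b
      rw [cmp_prodMap]
      by_cases hab : a = b
      · rw [if_pos hab]
        exact hc
      · rw [if_neg hab]
        exact ⟨⊤, fun γ _ => by rw [zero_mul, mul_zero]⟩
    have h2 := h _ h1
    refine LinearMap.ext fun x => ?_
    have h3 := DFunLike.congr_fun h2 (x, 0)
    exact congrArg Prod.fst h3
  · intro h c' hc'
    rw [commF_dbl] at hc'
    refine cmp_ext fun a b => ?_
    rw [dbl_T, cmp_mul, cmp_mul]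
    simp only [cmp_prodMap]
    have h1 := h _ (hc' a b)
    cases a <;> cases b <;> simp [h1]

omit [TopologicalSpace F] [ContinuousAdd F] in
private theorem gfPhi (κ : Module.End F V → AlgebraicClosure F) :
    ∃ κ' : Module.End F (V × V) → AlgebraicClosure F, (fun c => κ' (c.prodMap c)) = κ := by
  refine ⟨fun c' => κ (cmp false false c'), ?_⟩
  funext c
  show κ (cmp false false (c.prodMap c)) = κ c
  rw [cmp_prodMap, if_pos rfl]

private theorem gfMem (γ : Γ) (z : AlgebraicClosure F)
    (κ' : Module.End F (V × V) → AlgebraicClosure F) (x : AlgebraicClosure F ⊗[F] V)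
    (hx : x ∈ WtF ρ γ z fun c => κ' (c.prodMap c)) : injK F V false x ∈ Wt (dbl ρ) γ z κ' := by
  rw [wt_dbl]
  intro a
  rw [prK_injK]
  by_cases ha : a = false
  · rw [if_pos ha]
    exact hx
  · rw [if_neg ha]
    exact Submodule.zero_mem _

private theorem gfBot (γ : Γ) (z : AlgebraicClosure F)
    (κ' : Module.End F (V × V) → AlgebraicClosure F) :
    Wt (dbl ρ) γ z κ' = ⊥ ↔ (WtF ρ γ z fun c => κ' (c.prodMap c)) = ⊥ := by
  rw [Submodule.eq_bot_iff, Submodule.eq_bot_iff]
  constructor
  · intro h x hx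
    exact gfInj_zero F V (h _ (gfMem ρ γ z κ' x hx))
  · intro h y hy
    rw [wt_dbl] at hy
    rw [← injK_prK F V y, h _ (hy false), h _ (hy true), map_zero, map_zero, add_zero]

private theorem gfSpan :
    Submodule.span (AlgebraicClosure F)
      {X : Module.End (AlgebraicClosure F) (AlgebraicClosure F ⊗[F] (V × V)) |
        ∃ Y, Lefschetz (dbl ρ) Y ∧ X = Y.baseChange (AlgebraicClosure F)} =
    (Submodule.span (AlgebraicClosure F)
      {X : Module.End (AlgebraicClosure F) (AlgebraicClosure F ⊗[F] V) |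
        ∃ Y, Lef ρ Y ∧ X = Y.baseChange (AlgebraicClosure F)}).map (gfD F V) := by
  rw [Submodule.map_span]
  congr 1
  ext X'
  constructor
  · rintro ⟨Y', hY', rfl⟩
    rw [lef_dbl] at hY'
    obtain ⟨Y, hY, rfl⟩ := hY'
    exact ⟨_, ⟨Y, hY, rfl⟩, gfD_base F V Y⟩
  · rintro ⟨X, ⟨Y, hY, rfl⟩, rfl⟩
    exact ⟨Y.prodMap Y, (lef_dbl ρ _).2 ⟨Y, hY, rfl⟩, gfD_base F V Y⟩

theorem good_dbl (γ : Γ) : Good1 (dbl ρ) γ ↔ GoodF ρ γ := by
  unfold Good1 GoodF
  refine and_congr (gfCom ρ γ) (and_congr ?_ ?_)
  · constructor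
    · intro h z κ h1 h2
      obtain ⟨κ', rfl⟩ := gfPhi κ
      refine (isolated_dbl ρ γ z κ').1 (h z κ' ?_ ?_)
      · rwa [Ne, gfBot]
      · rwa [dual_dbl]
    · intro h z κ' h1 h2
      rw [isolated_dbl]
      refine h z _ ?_ ?_
      · rwa [Ne, ← gfBot]
      · rwa [← dual_dbl]
  · rw [gfSpan]
    constructor
    · intro h X hX h1
      have h2 : gfD F V X = 0 := by
        refine h _ (Submodule.mem_map_of_mem hX) fun z κ' hd y hy => ?_
        rw [wt_dbl] at hy
        rw [dual_dbl] at hd
        rw [gfD_apply, h1 z _ hd _ (hy false), h1 z _ hd _ (hy true), map_zero, map_zero, add_zero]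
      refine LinearMap.ext fun x => ?_
      have h3 := gfD_inj F V X x
      rw [h2, LinearMap.zero_apply] at h3
      exact gfInj_zero F V h3.symm
    · rintro h _ ⟨X, hX, rfl⟩ h1
      have h2 : X = 0 := by
        refine h X hX fun z κ hd x hx => ?_
        obtain ⟨κ', rfl⟩ := gfPhi κ
        have h3 := h1 z κ' (by rwa [dual_dbl]) _ (gfMem ρ γ z κ' x hx)
        rw [gfD_inj] at h3
        exact gfInj_zero F V h3
      rw [h2, map_zero]

end Pool.Agent.Lib.MP_640417_ag.Fr
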