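import Pool.Agent.Lib.MP_640417_ag.Fr.CommD
import Pool.Agent.Lib.MP_640417_ag.Ctl.Main
import Pool.Agent.Lib.MP_640417_ag.Glob.Tan
import Pool.Agent.Lib.MP_640417_ag.Glob.Open

/-!
# MP_640417_ag, Fr, module KillF (250 lines): the Lie algebra kills the Tate forms

`e` is a basis of `V × V`, `R` the matrices of `dbl ρ`. For `Y' : End (V × V)` let `Φ Y' v = DF (cmp false false Y') f v`, linear in `Y'`
(`DF` is linear in the endomorphism: `f` is linear in each variable).
* `tangent`: let `A ∈ R.Zt l`, `A = lim (l^k)⁻¹ (R.M (γ k) - 1)`, `Aᵀ J + J A = t J` (`Zt_mult` in `Glob/Tan.lean`). Then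
  `Φ A' v = i * t * f v` for the endomorphism `A'` with matrix `A`. Proof: `γ k` is in the open subgroup `U` of `f` for large `k` (see
  `Zt_tendsto_one`, `Zt_open` in `Glob/Open.lean`; `Zt_open` says that one can choose the `γ k` in `U` for another sequence, use whichever
  is convenient). With `g = T (γ k)`, `μ = μ (γ k) = χ⁻¹`: `f (g v) = μ^i f v`. `l^(-k) (f (g v) - f v)`: by telescoping
  `f (g v) - f v = ∑ j, f (.., v (j-1), (g - 1) (v j), g (v (j+1)), ..)`, and `l^(-k) (g - 1) x → a x` for `a = cmp false false A'` and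
  every `x` (entrywise convergence of the matrices; `g x = pr false (T' (γ k) (inj false x))`), `g x → x`; `f` is continuous in its
  arguments (finite dimensional, expand in a basis). So the limit is `DF a f v`. And `l^(-k) (μ - 1) → t` (`lim_mult` in `Glob/Lim.lean`),
  so `l^(-k) (μ^i - 1) → i t`.
* `Hh`: let `A ∈ R.Hh l`: `A ∈ spJ R.J` and `A + s • 1 = ∑ c_j A_j` with `A_j ∈ Zt`, `A_jᵀ J + J A_j = t_j J`. Taking `Xᵀ J + J X` of both sides
  `2 s = ∑ c_j t_j` (if `V` is not zero; otherwise everything is zero, as `2 i > 0` variables, or `i = 0` and `DF` is an empty sum). So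
  `Φ A' v = ∑ c_j i t_j f v - s * 2 i * f v = 0` (`DF 1 f v = 2 i f v`).
* `Zm`: `Z ∈ Zm R` is the matrix of a central skew element of `dbl ρ` (`coord_zm`), which is `z.prodMap z` with `CenSkew ρ z`
  (`central_dbl`), and `DF z f v = 0` by `hz`.
* `hm`: the matrix of `X.prodMap X` is `A + Z`, and `cmp false false (X.prodMap X) = X`.
-/

set_option autoImplicit false

namespace Pool.Agent.Lib.MP_640417_ag.Fr

open Filter Topology Matrix Module Pool.Agent.Lib.MP_640417_ag.Glob Pool.Agent.Lib.MP_640417_ag.Ctl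

section cv

variable {F : Type} [NontriviallyNormedField F] {V W : Type} [AddCommGroup V] [Module F V]
  [AddCommGroup W] [Module F W]

/-- weak convergence -/
private def Cv (x : ℕ → V) (y : V) : Prop :=
  ∀ φ : V →ₗ[F] F, Tendsto (fun k => φ (x k)) atTop (𝓝 (φ y))

private theorem cv_map {x : ℕ → V} {y : V} (T : V →ₗ[F] W) (h : Cv (F := F) x y) :
    Cv (F := F) (fun k => T (x k)) (T y) := fun φ => h (φ ∘ₗ T)

/-- multilinear forms are continuous -/
private theorem cv_multi [FiniteDimensional F V] {m : ℕ}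
    (f : MultilinearMap F (fun _ : Fin m => V) F) {x : ℕ → Fin m → V} {y : Fin m → V}
    (h : ∀ j, Cv (F := F) (fun k => x k j) (y j)) :
    Tendsto (fun k => f (x k)) atTop (𝓝 (f y)) := by
  classical
  let b := Module.finBasis F V
  have hexp : ∀ z : Fin m → V, f z = ∑ r : Fin m → Fin (Module.finrank F V),
      (∏ j, b.repr (z j) (r j)) * f fun j => b (r j) := by
    intro z
    have h1 : z = fun j => ∑ i, b.repr (z j) i • b i := funext fun j => (b.sum_repr (z j)).symm
    conv_lhs => rw [h1]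
    rw [MultilinearMap.map_sum]
    refine Finset.sum_congr rfl fun r _ => ?_
    rw [MultilinearMap.map_smul_univ, smul_eq_mul]
  have h2 : (fun k => f (x k)) = fun k => ∑ r : Fin m → Fin (Module.finrank F V),
      (∏ j, b.repr (x k j) (r j)) * f fun j => b (r j) := funext fun k => hexp (x k)
  rw [h2, hexp y]
  refine tendsto_finsetSum _ fun r _ => ?_
  exact (tendsto_finsetProd _ fun j _ => h j (b.coord (r j))).mul_const _

/-- the derivative of a multilinear form -/
private theorem cv_deriv [FiniteDimensional F V] {m : ℕ}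
    (f : MultilinearMap F (fun _ : Fin m => V) F) (v : Fin m → V) (c : ℕ → F)
    (hc : Tendsto c atTop (𝓝 0)) (hc0 : ∀ k, c k ≠ 0) (B : ℕ → Module.End F V)
    (a : Module.End F V) (h : ∀ x, Cv (F := F) (fun k => B k x) (a x)) :
    Tendsto (fun k => (c k)⁻¹ * (f (fun j => v j + c k • B k (v j)) - f v)) atTop
      (𝓝 (DF a f v)) := by
  classical
  have hDF : DF a f v = DF a f v +
      ∑ s : Finset (Fin m) with 2 ≤ s.card, (0 : F) * f (s.piecewise (fun j => a (v j)) v) := by
    rw [Finset.sum_eq_zero fun s _ => zero_mul _, add_zero]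
  have hk : ∀ k, (c k)⁻¹ * (f (fun j => v j + c k • B k (v j)) - f v) =
      DF (B k) f v + ∑ s : Finset (Fin m) with 2 ≤ s.card,
        (c k) ^ (s.card - 1) * f (s.piecewise (fun j => B k (v j)) v) := by
    intro k
    have h1 : (fun j => v j + c k • B k (v j)) = v + fun j => c k • B k (v j) := rfl
    rw [h1, MultilinearMap.map_add_eq_map_add_linearDeriv_add, MultilinearMap.linearDeriv_apply]
    have h2 : ∑ i, f (Function.update v i (c k • B k (v i))) = c k * DF (B k) f v := by
      rw [DF, Finset.mul_sum]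
      refine Finset.sum_congr rfl fun i _ => ?_
      rw [MultilinearMap.map_update_smul, smul_eq_mul]
    have h3 : ∀ s : Finset (Fin m), 2 ≤ s.card →
        f (s.piecewise (fun j => c k • B k (v j)) v) =
          c k * ((c k) ^ (s.card - 1) * f (s.piecewise (fun j => B k (v j)) v)) := by
      intro s hs
      have h4 : s.piecewise (fun j => c k • B k (v j)) v =
          fun j => (if j ∈ s then c k else 1) • s.piecewise (fun j => B k (v j)) v j := by
        funext j
        by_cases hj : j ∈ s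
        · rw [Finset.piecewise_eq_of_mem _ _ _ hj, Finset.piecewise_eq_of_mem _ _ _ hj, if_pos hj]
        · rw [Finset.piecewise_eq_of_notMem _ _ _ hj, Finset.piecewise_eq_of_notMem _ _ _ hj,
            if_neg hj, one_smul]
      rw [h4, MultilinearMap.map_smul_univ, smul_eq_mul, Finset.prod_ite_mem, Finset.univ_inter,
        Finset.prod_const, ← mul_assoc, ← pow_succ', Nat.sub_add_cancel (by omega)]
    rw [h2, Finset.sum_congr rfl fun s hs => h3 s (Finset.mem_filter.1 hs).2, ← Finset.mul_sum]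
    have hk0 := hc0 k
    field_simp
    ring
  rw [hDF]
  refine Tendsto.congr (fun k => (hk k).symm) ?_
  refine Tendsto.add ?_ (tendsto_finsetSum _ fun s hs => ?_)
  · refine tendsto_finsetSum _ fun j _ => cv_multi f fun i => ?_
    by_cases hij : i = j
    · subst hij
      simp only [Function.update_self]
      exact h (v i)
    · simp only [Function.update_of_ne hij]
      exact fun φ => tendsto_const_nhds
  · have hs2 := (Finset.mem_filter.1 hs).2
    refine Tendsto.mul ?_ (cv_multi f fun i => ?_)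
    · have h5 := hc.pow (s.card - 1)
      rwa [zero_pow (by omega)] at h5
    · by_cases hi : i ∈ s
      · simp only [Finset.piecewise_eq_of_mem _ _ _ hi]
        exact h (v i)
      · simp only [Finset.piecewise_eq_of_notMem _ _ _ hi]
        exact fun φ => tendsto_const_nhds

end cv

section df

variable {F : Type} [Field F] {V : Type} [AddCommGroup V] [Module F V] {m : ℕ}
  (f : MultilinearMap F (fun _ : Fin m => V) F) (v : Fin m → V)

private theorem df_add (X Y : Module.End F V) : DF (X + Y) f v = DF X f v + DF Y f v := by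
  rw [DF, DF, DF, ← Finset.sum_add_distrib]
  refine Finset.sum_congr rfl fun j _ => ?_
  rw [LinearMap.add_apply, MultilinearMap.map_update_add]

private theorem df_smul (s : F) (X : Module.End F V) : DF (s • X) f v = s * DF X f v := by
  rw [DF, DF, Finset.mul_sum]
  refine Finset.sum_congr rfl fun j _ => ?_
  rw [LinearMap.smul_apply, MultilinearMap.map_update_smul, smul_eq_mul]

theorem df_zero : DF (0 : Module.End F V) f v = 0 := by
  rw [DF]
  refine Finset.sum_eq_zero fun j _ => ?_
  rw [LinearMap.zero_apply]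
  exact f.map_coord_zero j (Function.update_self ..)

private theorem df_one : DF (1 : Module.End F V) f v = m * f v := by
  rw [DF]
  have h1 : ∀ j, f (Function.update v j ((1 : Module.End F V) (v j))) = f v := by
    intro j
    rw [Module.End.one_apply, Function.update_eq_self]
  rw [Finset.sum_congr rfl fun j _ => h1 j, Finset.sum_const, Finset.card_univ, Fintype.card_fin,
    nsmul_eq_mul]

/-- the component of a matrix -/
noncomputable def cm {I : Type} [Fintype I] [DecidableEq I] (e : Basis I F (V × V)) :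
    Matrix I I F →ₗ[F] Module.End F V where
  toFun A := cmp false false (Matrix.toLin e e A)
  map_add' A B := by
    rw [map_add]
    rfl
  map_smul' s A := by
    rw [map_smul]
    refine LinearMap.ext fun x => ?_
    simp [cmp, pr, inj]

theorem cm_apply {I : Type} [Fintype I] [DecidableEq I] (e : Basis I F (V × V))
    (A : Matrix I I F) (x : V) :
    cm e A x = pr F V false (Matrix.toLin e e A (inj F V false x)) := rfl

theorem cm_toMatrix {I : Type} [Fintype I] [DecidableEq I] (e : Basis I F (V × V))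
    (X : Module.End F (V × V)) : cm e (LinearMap.toMatrix e e X) = cmp false false X := by
  show cmp false false (Matrix.toLin e e (LinearMap.toMatrix e e X)) = _
  rw [Matrix.toLin_toMatrix]

theorem cm_one {I : Type} [Fintype I] [DecidableEq I] (e : Basis I F (V × V)) :
    cm e (1 : Matrix I I F) = 1 := by
  have h1 : (1 : Matrix I I F) = LinearMap.toMatrix e e (1 : Module.End F (V × V)) := by
    rw [LinearMap.toMatrix_one]
  rw [h1, cm_toMatrix]
  refine LinearMap.ext fun x => ?_
  simp [cmp, pr, inj]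

end df

section lim

variable {F : Type} [NontriviallyNormedField F] {V : Type} [AddCommGroup V] [Module F V]
  {I : Type} [Fintype I] [DecidableEq I]

private theorem cv_cm (e : Basis I F (V × V)) {B : ℕ → Matrix I I F} {A : Matrix I I F}
    (h : Tendsto B atTop (𝓝 A)) (x : V) : Cv (F := F) (fun k => cm e (B k) x) (cm e A x) := by
  intro φ
  have h1 : ∀ C : Matrix I I F, φ (cm e C x) = ∑ i, ∑ j, C i j *
      (e.repr (inj F V false x) j * φ (pr F V false (e i))) := by
    intro C
    rw [cm_apply, Matrix.toLin_apply, map_sum, map_sum]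
    refine Finset.sum_congr rfl fun i _ => ?_
    rw [map_smul, map_smul, smul_eq_mul, Matrix.mulVec, dotProduct, Finset.sum_mul]
    refine Finset.sum_congr rfl fun j _ => ?_
    ring
  simp only [h1]
  refine tendsto_finsetSum _ fun i _ => tendsto_finsetSum _ fun j _ => ?_
  have h2 : Tendsto (fun k => B k i j) atTop (𝓝 (A i j)) :=
    (tendsto_pi_nhds.mp ((tendsto_pi_nhds.mp h) i)) j
  exact h2.mul_const _

variable [IsUltrametricDist F] [CompleteSpace F] [CharZero F] [FiniteDimensional F V]
  {Γ : Type} [Group Γ] [TopologicalSpace Γ] [IsTopologicalGroup Γ] [CompactSpace Γ]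

/-- tangent vectors -/
private theorem kill_tangent (l : ℕ) (hl : ‖(l : F)‖ < 1) (hl0 : (l : F) ≠ 0)
    (ρ : FormRep Γ F V) [Nonempty I] (e : Basis I F (V × V)) (R : MRep Γ F I)
    (h1 : ∀ γ, R.M γ = LinearMap.toMatrix e e ((dbl ρ).T γ)) (h2 : R.μ = ρ.χ⁻¹) (i : ℕ)
    (f : MultilinearMap F (fun _ : Fin (2 * i) => V) F) (hf : TateF ρ i f) (v : Fin (2 * i) → V)
    (A : Matrix I I F) (hA : A ∈ R.Zt l) (t : F) (ht : Aᵀ * R.J + R.J * A = t • R.J) :
    DF (cm e A) f v = i * t * f v := by
  obtain ⟨U, hU⟩ := hf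
  obtain ⟨n, hn, γ, hγ, hlim⟩ := Zt_open R l hl hl0 U hA
  have hc : Tendsto (fun k : ℕ => (l : F) ^ k) atTop (𝓝 0) :=
    tendsto_pow_atTop_nhds_zero_of_norm_lt_one hl
  have hc0 : ∀ k : ℕ, (l : F) ^ k ≠ 0 := fun k => pow_ne_zero k hl0
  have hn0 : (n : F) ≠ 0 := Nat.cast_ne_zero.mpr hn.ne'
  have h4 := cv_deriv f v (fun k => (l : F) ^ k) hc hc0
    (fun k => cm e (((l : F) ^ k)⁻¹ • (R.M (γ k) - 1))) (cm e ((n : F) • A))
    (fun x => cv_cm e hlim x)
  have h5 : ((n : F) • A)ᵀ * R.J + R.J * ((n : F) • A) = ((n : F) * t) • R.J := by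
    rw [Matrix.transpose_smul, Matrix.smul_mul, Matrix.mul_smul, ← smul_add, ht, smul_smul]
  have h6 := lim_mult R.J R.det (fun k => R.M (γ k)) (fun k => (l : F) ^ k)
    (fun k => (R.μ (γ k) : F)) hc hc0 (fun k => R.eq (γ k)) _ _ h5 hlim
  have h7 : Tendsto (fun k => (R.μ (γ k) : F)) atTop (𝓝 1) := by
    have h8 := (hc.mul h6).add_const 1
    rw [zero_mul, zero_add] at h8
    refine h8.congr fun k => ?_
    rw [← mul_assoc, mul_inv_cancel₀ (hc0 k), one_mul, sub_add_cancel]
  have h8 : Tendsto (fun k => ((l : F) ^ k)⁻¹ * ((R.μ (γ k) : F) ^ i - 1)) atTop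
      (𝓝 ((i : F) * ((n : F) * t))) := by
    have h9 : Tendsto (fun k => ∑ j ∈ Finset.range i, (R.μ (γ k) : F) ^ j) atTop
        (𝓝 (∑ j ∈ Finset.range i, (1 : F) ^ j)) := tendsto_finsetSum _ fun j _ => h7.pow j
    have h10 := h6.mul h9
    have h11 : (n : F) * t * ∑ j ∈ Finset.range i, (1 : F) ^ j = (i : F) * ((n : F) * t) := by
      simp only [one_pow, Finset.sum_const, Finset.card_range, nsmul_eq_mul, mul_one]
      ring
    rw [h11] at h10
    refine h10.congr fun k => ?_
    rw [mul_assoc, mul_geom_sum]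
  have h9 : ∀ k, ((l : F) ^ k)⁻¹ * (f (fun j => v j + (l : F) ^ k •
      cm e (((l : F) ^ k)⁻¹ • (R.M (γ k) - 1)) (v j)) - f v) =
      ((l : F) ^ k)⁻¹ * ((R.μ (γ k) : F) ^ i - 1) * f v := by
    intro k
    have h10 : ∀ x : V, x + (l : F) ^ k • cm e (((l : F) ^ k)⁻¹ • (R.M (γ k) - 1)) x =
        ρ.T (γ k) x := by
      intro x
      rw [map_smul, LinearMap.smul_apply, smul_smul, mul_inv_cancel₀ (hc0 k), one_smul, map_sub,
        cm_one, h1, cm_toMatrix, dbl_T, cmp_prodMap, if_pos rfl, LinearMap.sub_apply,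
        Module.End.one_apply]
      abel
    have h11 : (fun j => v j + (l : F) ^ k •
        cm e (((l : F) ^ k)⁻¹ • (R.M (γ k) - 1)) (v j)) = fun j => ρ.T (γ k) (v j) :=
      funext fun j => h10 (v j)
    rw [h11]
    have h12 := hU (γ k) (hγ k) v
    have h13 : (R.μ (γ k) : F) ^ i * (ρ.χ (γ k) : F) ^ i = 1 := by
      rw [h2, ← mul_pow, MonoidHom.inv_apply, Units.inv_mul, one_pow]
    have h14 : f (fun j => ρ.T (γ k) (v j)) = (R.μ (γ k) : F) ^ i * f v := by
      rw [← h12, ← mul_assoc, h13, one_mul]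
    rw [h14]
    ring
  have h10 := tendsto_nhds_unique h4 ((h8.mul_const (f v)).congr fun k => (h9 k).symm)
  rw [map_smul, df_smul] at h10
  refine mul_left_cancel₀ hn0 ?_
  rw [h10]
  ring

theorem kill_hh (l : ℕ) (hl : ‖(l : F)‖ < 1) (hl0 : (l : F) ≠ 0)
    (ρ : FormRep Γ F V) [Nonempty I] (e : Basis I F (V × V)) (R : MRep Γ F I)
    (h1 : ∀ γ, R.M γ = LinearMap.toMatrix e e ((dbl ρ).T γ)) (h2 : R.μ = ρ.χ⁻¹) (i : ℕ)
    (f : MultilinearMap F (fun _ : Fin (2 * i) => V) F) (hf : TateF ρ i f) (v : Fin (2 * i) → V)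
    (A : Matrix I I F) (hA : A ∈ R.Hh l) : DF (cm e A) f v = 0 := by
  obtain ⟨hX1, s, hs⟩ := hA
  rw [mem_spJ] at hX1
  have key : ∀ A ∈ Submodule.span F (R.Zt l), ∃ t : F, Aᵀ * R.J + R.J * A = t • R.J ∧
      DF (cm e A) f v = i * t * f v := by
    intro A hA
    induction hA using Submodule.span_induction with
    | mem A hA =>
      obtain ⟨t, ht⟩ := Zt_mult R l hl hl0 hA
      exact ⟨t, ht, kill_tangent l hl hl0 ρ e R h1 h2 i f hf v A hA t ht⟩
    | zero =>
      refine ⟨0, ?_, ?_⟩
      · simp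
      · rw [map_zero, df_zero]
        ring
    | add A B _ _ hA hB =>
      obtain ⟨t, h3, h4⟩ := hA
      obtain ⟨u, h5, h6⟩ := hB
      refine ⟨t + u, ?_, ?_⟩
      · rw [Matrix.transpose_add, Matrix.add_mul, Matrix.mul_add, add_add_add_comm, h3, h5,
          add_smul]
      · rw [map_add, df_add, h4, h6]
        ring
    | smul r A _ hA =>
      obtain ⟨t, h3, h4⟩ := hA
      refine ⟨r * t, ?_, ?_⟩
      · rw [Matrix.transpose_smul, Matrix.smul_mul, Matrix.mul_smul, ← smul_add, h3, smul_smul]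
      · rw [map_smul, df_smul, h4]
        ring
  obtain ⟨t, h3, h4⟩ := key _ hs
  have h5 : (2 * s) • R.J = t • R.J := by
    rw [← h3, Matrix.transpose_add, Matrix.transpose_smul, Matrix.transpose_one, Matrix.add_mul,
      Matrix.mul_add, add_add_add_comm, hX1, zero_add, Matrix.smul_mul, Matrix.mul_smul,
      Matrix.one_mul, Matrix.mul_one, ← add_smul, two_mul]
  have h6 : 2 * s = t := by
    by_contra hne
    have h7 : (2 * s - t) • R.J = 0 := by rw [sub_smul, h5, sub_self]
    have h8 : R.J = 0 := by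
      rcases smul_eq_zero.mp h7 with h | h
      · exact absurd (sub_eq_zero.mp h) hne
      · exact h
    exact R.det (by rw [h8, Matrix.det_zero])
  rw [map_add, map_smul, cm_one, df_add, df_smul, df_one, ← h6] at h4
  push_cast at h4
  linear_combination h4

end lim

theorem kill_form (l : ℕ) [Fact l.Prime] {Γ : Type} [Group Γ]
    [TopologicalSpace Γ] [IsTopologicalGroup Γ] [CompactSpace Γ] {V : Type} [AddCommGroup V]
    [Module ℚ_[l] V] [FiniteDimensional ℚ_[l] V] (ρ : FormRep Γ ℚ_[l] V) {I : Type} [Fintype I]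
    [DecidableEq I] (e : Basis I ℚ_[l] (V × V)) (R : MRep Γ ℚ_[l] I)
    (h1 : ∀ γ, R.M γ = LinearMap.toMatrix e e ((dbl ρ).T γ)) (h2 : R.μ = ρ.χ⁻¹)
    (h3 : ∀ i j, R.J i j = (dbl ρ).form (e i) (e j)) (X : Module.End ℚ_[l] V)
    (hm : LinearMap.toMatrix e e (X.prodMap X) ∈ Hp R l) (i : ℕ)
    (f : MultilinearMap ℚ_[l] (fun _ : Fin (2 * i) => V) ℚ_[l]) (hf : TateF ρ i f)
    (hz : ∀ z, CenSkew ρ z → ∀ v, DF z f v = 0) (v : Fin (2 * i) → V) : DF X f v = 0 := by
  rcases isEmpty_or_nonempty I with hI | hI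
  · have h4 : X = 0 := by
      refine LinearMap.ext fun x => ?_
      have h5 : ((x, 0) : V × V) = 0 := by
        have h6 := e.sum_repr (x, (0 : V))
        rw [Finset.univ_eq_empty, Finset.sum_empty] at h6
        exact h6.symm
      have h7 : x = 0 := (Prod.mk.inj h5).1
      rw [h7, map_zero, map_zero]
    rw [h4, df_zero]
  · obtain ⟨A, hA, Z, hZ, hAZ⟩ := Submodule.mem_sup.mp hm
    have hX : X = cm e A + cm e Z := by
      rw [← map_add, hAZ, cm_toMatrix, cmp_prodMap, if_pos rfl]
    have hl : ‖(l : ℚ_[l])‖ < 1 := by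
      rw [Padic.norm_p]
      exact inv_lt_one_of_one_lt₀ (by exact_mod_cast (Fact.out : l.Prime).one_lt)
    have hl0 : (l : ℚ_[l]) ≠ 0 := by
      exact_mod_cast (Fact.out : l.Prime).ne_zero
    rw [hX, df_add, kill_hh l hl hl0 ρ e R h1 h2 i f hf v A hA, zero_add]
    obtain ⟨Z', rfl⟩ := (LinearMap.toMatrix e e).surjective Z
    obtain ⟨z, hz1, rfl⟩ := (central_dbl ρ Z').1 ((coord_zm (dbl ρ) e R h1 h3 Z').mp hZ)
    rw [cm_toMatrix, cmp_prodMap, if_pos rfl]
    exact hz z hz1 v

end Pool.Agent.Lib.MP_640417_ag.Fr
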