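import Pool.Agent.Lib.MP_640417_ag.Ctl.Main
import Pool.Agent.Lib.MP_640417_ag.Gn.ResG
import Pool.Agent.Lib.MP_640417_ag.Gen4.Main

/-!
# MP_640417_ag, Fr, module QCond (200 lines): endomorphisms of `End V`

* `mem_of_qcond`: `mem_Hp_of_Q` (`Ctl/Kill.lean`) for `R` and the matrix of `X`. Let `Q` be as there (on matrices). Transport it to
  `Q' : End V → End V` by `toMatrix e e` (a ring isomorphism `LinearMap.toMatrixAlgEquiv e`; `R.M γ` is the matrix of `T γ`); `Zm R` corresponds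
  to the central skew elements (`coord_zm`); apply `h`.
* `lef_of_qcond`: `exists_coord` for a basis, `coord_semi`, `mem_of_qcond`, and `kills_of_mem` (`Ctl/Main.lean`).
-/

set_option autoImplicit false

namespace Pool.Agent.Lib.MP_640417_ag.Fr

open Matrix Module Pool.Agent.Lib.MP_640417_ag Pool.Agent.Lib.MP_640417_ag.Frob
  Pool.Agent.Lib.MP_640417_ag.Glob Pool.Agent.Lib.MP_640417_ag.Four
  Pool.Agent.Lib.MP_640417_ag.Ctl Pool.Agent.Lib.MP_640417_ag.Ty Pool.Agent.Lib.MP_640417_ag.Gen4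

/-- Every linear endomorphism of `End V` which commutes with the conjugations by an open subgroup and with the
central skew elements commutes with the Lefschetz Lie algebra. -/
def QCond {Γ : Type} [Group Γ] [TopologicalSpace Γ] {F : Type} [Field F]
    [TopologicalSpace F] {V : Type} [AddCommGroup V] [Module F V] (ρ : H1Rep Γ F V) : Prop :=
  ∀ Q : Module.End F V →ₗ[F] Module.End F V,
    (∃ U : OpenSubgroup Γ, ∀ γ ∈ U, ∀ Y, Q (ρ.T γ * Y * ρ.T γ⁻¹) = ρ.T γ * Q Y * ρ.T γ⁻¹) →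
    (∀ z, CentralSkew ρ z → ∀ Y, z * Q Y - Q Y * z = Q (z * Y - Y * z)) →
    ∀ X, Lefschetz ρ X → ∀ Y, X * Q Y - Q Y * X = Q (X * Y - Y * X)

variable (l : ℕ) [Fact l.Prime] {Γ : Type} [Group Γ]
    [TopologicalSpace Γ] [IsTopologicalGroup Γ] [CompactSpace Γ] {V : Type} [AddCommGroup V]
    [Module ℚ_[l] V] [FiniteDimensional ℚ_[l] V] (ρ : H1Rep Γ ℚ_[l] V)

theorem mem_of_qcond (h : QCond ρ) {I : Type} [Fintype I] [DecidableEq I]
    (e : Basis I ℚ_[l] V) (R : MRep Γ ℚ_[l] I)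
    (h1 : ∀ γ, R.M γ = LinearMap.toMatrix e e (ρ.T γ))
    (h3 : ∀ i j, R.J i j = ρ.form (e i) (e j)) (hs : R.Semi) {X : Module.End ℚ_[l] V}
    (hX : Lefschetz ρ X) : LinearMap.toMatrix e e X ∈ Hp R l := by
  refine mem_Hp_of_Q R l (norm_l l) (l_ne l) hs _ ((coord_skew ρ e R h3 X).mpr hX.2)
    fun Q hQ hz Y => ?_
  have hM : ∀ γ, R.M γ = LinearMap.toMatrixAlgEquiv e (ρ.T γ) := h1
  -- transport to endomorphisms
  obtain ⟨Q', hQ'⟩ : ∃ Q' : Module.End ℚ_[l] V →ₗ[ℚ_[l]] Module.End ℚ_[l] V, ∀ Z,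
      LinearMap.toMatrixAlgEquiv e (Q' Z) = Q (LinearMap.toMatrixAlgEquiv e Z) :=
    ⟨(LinearMap.toMatrixAlgEquiv e).symm.toLinearMap ∘ₗ Q ∘ₗ
      (LinearMap.toMatrixAlgEquiv e).toLinearMap,
      fun Z => (LinearMap.toMatrixAlgEquiv e).apply_symm_apply _⟩
  obtain ⟨Z, rfl⟩ := (LinearMap.toMatrixAlgEquiv e).surjective Y
  have h5 : X * Q' Z - Q' Z * X = Q' (X * Z - Z * X) := by
    refine h Q' ?_ ?_ X hX Z
    · obtain ⟨U, hU⟩ := hQ
      refine ⟨U, fun γ hγ Y => (LinearMap.toMatrixAlgEquiv e).injective ?_⟩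
      have h6 := hU γ hγ (LinearMap.toMatrixAlgEquiv e Y)
      rw [hM, hM, ← map_mul (LinearMap.toMatrixAlgEquiv e), ← map_mul (LinearMap.toMatrixAlgEquiv e),
        ← hQ', ← hQ', ← map_mul (LinearMap.toMatrixAlgEquiv e),
        ← map_mul (LinearMap.toMatrixAlgEquiv e)] at h6
      exact h6
    · intro z hzz Y
      apply (LinearMap.toMatrixAlgEquiv e).injective
      have h6 : LinearMap.toMatrixAlgEquiv e z * Q (LinearMap.toMatrixAlgEquiv e Y) -
          Q (LinearMap.toMatrixAlgEquiv e Y) * LinearMap.toMatrixAlgEquiv e z =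
          Q (LinearMap.toMatrixAlgEquiv e z * LinearMap.toMatrixAlgEquiv e Y -
            LinearMap.toMatrixAlgEquiv e Y * LinearMap.toMatrixAlgEquiv e z) :=
        hz _ ((coord_zm ρ e R h1 h3 z).mpr hzz) _
      rw [← hQ', ← map_mul (LinearMap.toMatrixAlgEquiv e), ← map_mul (LinearMap.toMatrixAlgEquiv e),
        ← map_mul (LinearMap.toMatrixAlgEquiv e), ← map_mul (LinearMap.toMatrixAlgEquiv e),
        ← map_sub (LinearMap.toMatrixAlgEquiv e), ← map_sub (LinearMap.toMatrixAlgEquiv e),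
        ← hQ'] at h6
      exact h6
  have h6 := congrArg (LinearMap.toMatrixAlgEquiv e) h5
  rw [hQ', map_sub (LinearMap.toMatrixAlgEquiv e), map_sub (LinearMap.toMatrixAlgEquiv e),
    map_mul (LinearMap.toMatrixAlgEquiv e), map_mul (LinearMap.toMatrixAlgEquiv e),
    map_mul (LinearMap.toMatrixAlgEquiv e), map_mul (LinearMap.toMatrixAlgEquiv e), hQ'] at h6
  exact h6

theorem lef_of_qcond (hsemi : Semisimple ρ) (h : QCond ρ) (n i : ℕ) : LefCond ρ n i := by
  intro x hx hz X hX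
  obtain ⟨R, h1, h2, h3⟩ := exists_coord ρ (Module.finBasis ℚ_[l] V)
  exact kills_of_mem l ρ _ R h1 h2 h3 X
    (mem_of_qcond l ρ h _ R h1 h3 (coord_semi ρ _ R h1 hsemi) hX) n i x hx hz

end Pool.Agent.Lib.MP_640417_ag.Fr
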