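import Pool.Agent.Lib.MP_640417_ag.Fr.CommD
import Pool.Agent.Lib.MP_640417_ag.Fr.QCond

/-!
# MP_640417_ag, Fr, module QDbl (120 lines): from `End V` to `End (V × V)`

Let `Q'` be an endomorphism of `End (V × V)` as in `QCond (dbl ρ)`, `X' = X.prodMap X` with `Lef ρ X` (`lef_dbl`). For `a b c d : Bool` let
`Q Y = cmp a b (Q' (inj c ∘ Y ∘ pr d))`, a linear endomorphism of `End V`. It commutes with conjugation by `T γ`, `γ ∈ U`:
`inj c ∘ (T γ Y T γ⁻¹) ∘ pr d = T' γ (inj c ∘ Y ∘ pr d) T' γ⁻¹`, and `cmp a b (T' γ Z T' γ⁻¹) = T γ (cmp a b Z) T γ⁻¹`. For a central skew `z`: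
`z' = z.prodMap z` is central skew (`central_dbl`), `inj c ∘ (z Y - Y z) ∘ pr d = z' (inj c ∘ Y ∘ pr d) - (inj c ∘ Y ∘ pr d) z'` and
`cmp a b (z' Z - Z z') = z (cmp a b Z) - (cmp a b Z) z`. So `h` gives the same for `X`. Finally
`Y' = ∑ c d, inj c ∘ cmp c d Y' ∘ pr d` and `cmp_ext`.
-/

set_option autoImplicit false

namespace Pool.Agent.Lib.MP_640417_ag.Fr

section

variable {F : Type} [Field F] {V : Type} [AddCommGroup V] [Module F V]

/-- the matrix units -/
private def qu (c d : Bool) (Y : Module.End F V) : Module.End F (V × V) :=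
  inj F V c ∘ₗ Y ∘ₗ pr F V d

private theorem pr_prodMap (a : Bool) (X : Module.End F V) :
    pr F V a ∘ₗ (X.prodMap X) = X ∘ₗ pr F V a := by
  cases a <;> rfl

private theorem prodMap_inj (a : Bool) (X : Module.End F V) :
    (X.prodMap X) ∘ₗ inj F V a = inj F V a ∘ₗ X := by
  cases a <;> ext <;> simp [inj]

private theorem qu_mul_left (c d : Bool) (X Y : Module.End F V) :
    qu c d (X * Y) = X.prodMap X * qu c d Y :=
  LinearMap.ext fun x => (LinearMap.congr_fun (prodMap_inj c X) (Y (pr F V d x))).symm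

private theorem qu_mul_right (c d : Bool) (X Y : Module.End F V) :
    qu c d (Y * X) = qu c d Y * X.prodMap X :=
  LinearMap.ext fun x =>
    congrArg (fun t => inj F V c (Y t)) (LinearMap.congr_fun (pr_prodMap d X) x).symm

private theorem cmp_mul_left (a b : Bool) (X : Module.End F V) (Z : Module.End F (V × V)) :
    cmp a b (X.prodMap X * Z) = X * cmp a b Z :=
  LinearMap.ext fun x => LinearMap.congr_fun (pr_prodMap a X) (Z (inj F V b x))

private theorem cmp_mul_right (a b : Bool) (X : Module.End F V) (Z : Module.End F (V × V)) :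
    cmp a b (Z * X.prodMap X) = cmp a b Z * X :=
  LinearMap.ext fun x =>
    congrArg (fun t => pr F V a (Z t)) (LinearMap.congr_fun (prodMap_inj b X) x)

private theorem cmp_sub (a b : Bool) (Z Z' : Module.End F (V × V)) :
    cmp a b (Z - Z') = cmp a b Z - cmp a b Z' := by
  show pr F V a ∘ₗ (Z - Z') ∘ₗ inj F V b = _
  rw [LinearMap.sub_comp, LinearMap.comp_sub]
  rfl

private theorem cmp_add (a b : Bool) (Z Z' : Module.End F (V × V)) :
    cmp a b (Z + Z') = cmp a b Z + cmp a b Z' := by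
  show pr F V a ∘ₗ (Z + Z') ∘ₗ inj F V b = _
  rw [LinearMap.add_comp, LinearMap.comp_add]
  rfl

private theorem qu_sub (c d : Bool) (Y Y' : Module.End F V) :
    qu c d (Y - Y') = qu c d Y - qu c d Y' := by
  show inj F V c ∘ₗ (Y - Y') ∘ₗ pr F V d = _
  rw [LinearMap.sub_comp, LinearMap.comp_sub]
  rfl

/-- the component of `Q'` -/
private def qmap (Q' : Module.End F (V × V) →ₗ[F] Module.End F (V × V)) (a b c d : Bool) :
    Module.End F V →ₗ[F] Module.End F V where
  toFun Y := cmp a b (Q' (qu c d Y))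
  map_add' Y Y' := by
    have h1 : qu c d (Y + Y') = qu c d Y + qu c d Y' := by
      show inj F V c ∘ₗ (Y + Y') ∘ₗ pr F V d = _
      rw [LinearMap.add_comp, LinearMap.comp_add]
      rfl
    rw [h1, map_add, cmp_add]
  map_smul' s Y := by
    have h1 : qu c d (s • Y) = s • qu c d Y := by
      show inj F V c ∘ₗ (s • Y) ∘ₗ pr F V d = _
      rw [LinearMap.smul_comp, LinearMap.comp_smul]
      rfl
    rw [h1, map_smul]
    show pr F V a ∘ₗ (s • Q' (qu c d Y)) ∘ₗ inj F V b = _
    rw [LinearMap.smul_comp, LinearMap.comp_smul]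
    rfl

private theorem qmap_apply (Q' : Module.End F (V × V) →ₗ[F] Module.End F (V × V))
    (a b c d : Bool) (Y : Module.End F V) : qmap Q' a b c d Y = cmp a b (Q' (qu c d Y)) := rfl

private theorem eq_sum_qu (Z : Module.End F (V × V)) :
    Z = qu false false (cmp false false Z) + qu false true (cmp false true Z) +
      (qu true false (cmp true false Z) + qu true true (cmp true true Z)) := by
  have h : ∀ a b c d (Y : Module.End F V), cmp a b (qu c d Y) = if a = c ∧ b = d then Y else 0 :=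
    fun a b c d Y => cmp_unit a b c d Y
  refine cmp_ext fun a b => ?_
  rw [cmp_add, cmp_add, cmp_add, h, h, h, h]
  cases a <;> cases b <;> simp

end

variable {Γ : Type} [Group Γ] [TopologicalSpace Γ] {F : Type} [Field F]
  [TopologicalSpace F] [ContinuousAdd F] {V : Type} [AddCommGroup V] [Module F V]
  (ρ : FormRep Γ F V)

theorem qcond_dbl (h : ∀ Q : Module.End F V →ₗ[F] Module.End F V,
    (∃ U : OpenSubgroup Γ, ∀ γ ∈ U, ∀ Y,
      Q (ρ.T γ * Y * ρ.T γ⁻¹) = ρ.T γ * Q Y * ρ.T γ⁻¹) →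
    (∀ z, CenSkew ρ z → ∀ Y, z * Q Y - Q Y * z = Q (z * Y - Y * z)) →
    ∀ X, Lef ρ X → ∀ Y, X * Q Y - Q Y * X = Q (X * Y - Y * X)) : QCond (dbl ρ) := by
  intro Q' hQ hz X' hX' Y'
  obtain ⟨U, hU⟩ := hQ
  obtain ⟨X, hX, rfl⟩ := (lef_dbl ρ X').mp hX'
  -- the condition for the components
  have key : ∀ a b c d (Y : Module.End F V),
      X * qmap Q' a b c d Y - qmap Q' a b c d Y * X = qmap Q' a b c d (X * Y - Y * X) := by
    intro a b c d
    refine h (qmap Q' a b c d) ⟨U, fun γ hγ Y => ?_⟩ (fun z hz' Y => ?_) X hX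
    · rw [qmap_apply, qmap_apply, qu_mul_right, qu_mul_left]
      have h1 := hU γ hγ (qu c d Y)
      rw [dbl_T, dbl_T] at h1
      rw [h1, cmp_mul_right, cmp_mul_left]
    · have h1 := hz _ ((central_dbl ρ _).mpr ⟨z, hz', rfl⟩) (qu c d Y)
      rw [qmap_apply, qmap_apply, qu_sub, qu_mul_right c d z Y, qu_mul_left c d z Y, ← h1, cmp_sub,
        cmp_mul_left, cmp_mul_right]
  -- the condition for the matrix units
  have key2 : ∀ c d (Y : Module.End F V), X.prodMap X * Q' (qu c d Y) - Q' (qu c d Y) *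
      X.prodMap X = Q' (X.prodMap X * qu c d Y - qu c d Y * X.prodMap X) := by
    intro c d Y
    refine cmp_ext fun a b => ?_
    have h1 := key a b c d Y
    rw [qmap_apply, qmap_apply, qu_sub, qu_mul_right c d X Y, qu_mul_left c d X Y] at h1
    rw [← h1, cmp_sub, cmp_mul_left, cmp_mul_right]
  have hadd : ∀ Y Y' : Module.End F (V × V),
      X.prodMap X * Q' Y - Q' Y * X.prodMap X = Q' (X.prodMap X * Y - Y * X.prodMap X) →
      X.prodMap X * Q' Y' - Q' Y' * X.prodMap X = Q' (X.prodMap X * Y' - Y' * X.prodMap X) →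
      X.prodMap X * Q' (Y + Y') - Q' (Y + Y') * X.prodMap X =
        Q' (X.prodMap X * (Y + Y') - (Y + Y') * X.prodMap X) := by
    intro Y Y' h1 h2
    rw [map_add, mul_add, add_mul, add_sub_add_comm, h1, h2, ← map_add, mul_add, add_mul,
      add_sub_add_comm]
  rw [eq_sum_qu Y']
  exact hadd _ _ (hadd _ _ (key2 _ _ _) (key2 _ _ _)) (hadd _ _ (key2 _ _ _) (key2 _ _ _))

end Pool.Agent.Lib.MP_640417_ag.Fr
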