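import Pool.Agent.Lib.MP_640417_ag.Fr.Dbl

/-!
# MP_640417_ag, Fr, module QForm (200 lines): four forms and endomorphisms of `End V`

`B = ρ.form`. For `a, b : V` let `R a b : End V`, `R a b x = B b x • a`. For `Q : End V → End V` let
`f v = B (Q (R (v 0) (v 1)) (v 2)) (v 3)`, a multilinear form in `2 * 2 = 4` variables (construct it with `MultilinearMap.mk` and
`Function.update` on `Fin 4`, or with `LinearMap.uncurryLeft`-type constructions; `Fin (2 * 2)` is definitionally `Fin 4`).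
* Tate: `R (T γ a) (T γ b) = χ⁻¹ • T γ * R a b * T γ⁻¹` (`B (T γ b) x = χ⁻¹ B b (T γ⁻¹ x)`), so
  `f (T γ v) = χ⁻¹ B (T γ Q (R ..) T γ⁻¹ T γ (v 2)) (T γ (v 3)) = χ⁻² f v`.
* For `X` skew: `R (X a) b + R a (X b) = X R a b - R a b X` (as `B (X b) x = - B b (X x)`), so
  `DF X f v = B ((Q (X Y - Y X) - (X Q Y - Q Y X)) (v 2)) (v 3)` with `Y = R (v 0) (v 1)` (for the last variable:
  `B (Q Y (v 2)) (X (v 3)) = - B (X (Q Y (v 2))) (v 3)`).
* So the central skew elements kill `f` (`hz`), so by `h` `X` kills it, so `X Q Y - Q Y X = Q (X Y - Y X)` for all `Y = R a b`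
  (`B` is nondegenerate on both sides, `form_swap`). The `R a b` span `End V` (`V` is finite dimensional and `B` nondegenerate: for a basis
  `e` there are `b_j` with `B b_j (e k) = δ`; `Y = ∑ j, R (Y (e j)) (b_j)`).
-/

set_option autoImplicit false

namespace Pool.Agent.Lib.MP_640417_ag.Fr

variable {Γ : Type} [Group Γ] [TopologicalSpace Γ] {F : Type} [Field F]
  [TopologicalSpace F] {V : Type} [AddCommGroup V] [Module F V] [FiniteDimensional F V]
  (ρ : FormRep Γ F V)

omit [FiniteDimensional F V] in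
private theorem tinv (γ : Γ) (x : V) : ρ.T γ⁻¹ (ρ.T γ x) = x := by
  rw [← Module.End.mul_apply, ← map_mul, inv_mul_cancel, map_one, Module.End.one_apply]

omit [FiniteDimensional F V] in
private theorem tinv' (γ : Γ) (x : V) : ρ.T γ (ρ.T γ⁻¹ x) = x := by
  rw [← Module.End.mul_apply, ← map_mul, mul_inv_cancel, map_one, Module.End.one_apply]

/-- the endomorphism of rank one -/
private noncomputable def rk (a b : V) : Module.End F V := (ρ.form b).smulRight a

omit [FiniteDimensional F V] in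
private theorem rk_apply (a b x : V) : rk ρ a b x = ρ.form b x • a := rfl

omit [FiniteDimensional F V] in
private theorem rk_addl (a a' b : V) : rk ρ (a + a') b = rk ρ a b + rk ρ a' b := by
  ext x
  rw [LinearMap.add_apply, rk_apply, rk_apply, rk_apply, smul_add]

omit [FiniteDimensional F V] in
private theorem rk_addr (a b b' : V) : rk ρ a (b + b') = rk ρ a b + rk ρ a b' := by
  ext x
  rw [LinearMap.add_apply, rk_apply, rk_apply, rk_apply, map_add, LinearMap.add_apply, add_smul]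

omit [FiniteDimensional F V] in
private theorem rk_smull (c : F) (a b : V) : rk ρ (c • a) b = c • rk ρ a b := by
  ext x
  rw [LinearMap.smul_apply, rk_apply, rk_apply, smul_comm]

omit [FiniteDimensional F V] in
private theorem rk_smulr (c : F) (a b : V) : rk ρ a (c • b) = c • rk ρ a b := by
  ext x
  rw [LinearMap.smul_apply, rk_apply, rk_apply, map_smul, LinearMap.smul_apply, smul_assoc]

private theorem ne4 : (1 : Fin 4) ≠ 0 ∧ (2 : Fin 4) ≠ 0 ∧ (3 : Fin 4) ≠ 0 ∧ (2 : Fin 4) ≠ 1 ∧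
    (3 : Fin 4) ≠ 1 ∧ (3 : Fin 4) ≠ 2 := by decide

private theorem upd {α : Type} [DecidableEq (Fin 4)] (v : Fin 4 → α) (x : α) :
    (Function.update v 0 x 0 = x ∧ Function.update v 0 x 1 = v 1 ∧
      Function.update v 0 x 2 = v 2 ∧ Function.update v 0 x 3 = v 3) ∧
    (Function.update v 1 x 0 = v 0 ∧ Function.update v 1 x 1 = x ∧
      Function.update v 1 x 2 = v 2 ∧ Function.update v 1 x 3 = v 3) ∧
    (Function.update v 2 x 0 = v 0 ∧ Function.update v 2 x 1 = v 1 ∧
      Function.update v 2 x 2 = x ∧ Function.update v 2 x 3 = v 3) ∧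
    Function.update v 3 x 0 = v 0 ∧ Function.update v 3 x 1 = v 1 ∧
      Function.update v 3 x 2 = v 2 ∧ Function.update v 3 x 3 = x := by
  obtain ⟨n10, n20, n30, n21, n31, n32⟩ := ne4
  exact ⟨⟨Function.update_self _ _ _, Function.update_of_ne n10 _ _,
      Function.update_of_ne n20 _ _, Function.update_of_ne n30 _ _⟩,
    ⟨Function.update_of_ne n10.symm _ _, Function.update_self _ _ _,
      Function.update_of_ne n21 _ _, Function.update_of_ne n31 _ _⟩,
    ⟨Function.update_of_ne n20.symm _ _, Function.update_of_ne n21.symm _ _,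
      Function.update_self _ _ _, Function.update_of_ne n32 _ _⟩,
    Function.update_of_ne n30.symm _ _, Function.update_of_ne n31.symm _ _,
      Function.update_of_ne n32.symm _ _, Function.update_self _ _ _⟩

private theorem fin4 (i : Fin 4) : i = 0 ∨ i = 1 ∨ i = 2 ∨ i = 3 := by
  revert i
  decide

/-- the form in four variables -/
private noncomputable def fq (Q : Module.End F V →ₗ[F] Module.End F V) :
    MultilinearMap F (fun _ : Fin 4 => V) F where
  toFun v := ρ.form (Q (rk ρ (v 0) (v 1)) (v 2)) (v 3)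
  map_update_add' {_} v i x y := by
    rcases fin4 i with rfl | rfl | rfl | rfl
    · simp only [(upd v _).1.1, (upd v _).1.2.1, (upd v _).1.2.2.1, (upd v _).1.2.2.2, rk_addl,
        map_add, LinearMap.add_apply]
    · simp only [(upd v _).2.1.1, (upd v _).2.1.2.1, (upd v _).2.1.2.2.1, (upd v _).2.1.2.2.2,
        rk_addr, map_add, LinearMap.add_apply]
    · simp only [(upd v _).2.2.1.1, (upd v _).2.2.1.2.1, (upd v _).2.2.1.2.2.1,
        (upd v _).2.2.1.2.2.2, map_add, LinearMap.add_apply]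
    · simp only [(upd v _).2.2.2.1, (upd v _).2.2.2.2.1, (upd v _).2.2.2.2.2.1,
        (upd v _).2.2.2.2.2.2, map_add]
  map_update_smul' {_} v i c x := by
    rcases fin4 i with rfl | rfl | rfl | rfl
    · simp only [(upd v _).1.1, (upd v _).1.2.1, (upd v _).1.2.2.1, (upd v _).1.2.2.2, rk_smull,
        map_smul, LinearMap.smul_apply]
    · simp only [(upd v _).2.1.1, (upd v _).2.1.2.1, (upd v _).2.1.2.2.1, (upd v _).2.1.2.2.2,
        rk_smulr, map_smul, LinearMap.smul_apply]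
    · simp only [(upd v _).2.2.1.1, (upd v _).2.2.1.2.1, (upd v _).2.2.1.2.2.1,
        (upd v _).2.2.1.2.2.2, map_smul, LinearMap.smul_apply]
    · simp only [(upd v _).2.2.2.1, (upd v _).2.2.2.2.1, (upd v _).2.2.2.2.2.1,
        (upd v _).2.2.2.2.2.2, map_smul]

omit [FiniteDimensional F V] in
private theorem fq_apply (Q : Module.End F V →ₗ[F] Module.End F V) (v : Fin 4 → V) :
    fq ρ Q v = ρ.form (Q (rk ρ (v 0) (v 1)) (v 2)) (v 3) := rfl

omit [FiniteDimensional F V] in
private theorem fq_tate (Q : Module.End F V →ₗ[F] Module.End F V)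
    (hQ : ∃ U : OpenSubgroup Γ, ∀ γ ∈ U, ∀ Y,
      Q (ρ.T γ * Y * ρ.T γ⁻¹) = ρ.T γ * Q Y * ρ.T γ⁻¹) : TateF ρ 2 (fq ρ Q) := by
  obtain ⟨U, hU⟩ := hQ
  refine ⟨U, fun γ hγ v => ?_⟩
  have h1 : ∀ a b, rk ρ (ρ.T γ a) (ρ.T γ b) =
      ((ρ.χ γ)⁻¹ : Fˣ).val • (ρ.T γ * rk ρ a b * ρ.T γ⁻¹) := by
    intro a b
    ext x
    rw [LinearMap.smul_apply, Module.End.mul_apply, Module.End.mul_apply, rk_apply, rk_apply,
      map_smul, smul_smul, ← ρ.form_equivariant, tinv']
  have h2 : fq ρ Q (fun j => ρ.T γ (v j)) = ((ρ.χ γ)⁻¹ : Fˣ).val * ((ρ.χ γ)⁻¹ : Fˣ).val *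
      fq ρ Q v := by
    rw [fq_apply, fq_apply]
    show ρ.form (Q (rk ρ (ρ.T γ (v (0 : Fin 4))) (ρ.T γ (v (1 : Fin 4))))
      (ρ.T γ (v (2 : Fin 4)))) (ρ.T γ (v (3 : Fin 4))) = _
    rw [h1, map_smul, hU γ hγ, LinearMap.smul_apply, Module.End.mul_apply, Module.End.mul_apply,
      tinv, map_smul, LinearMap.smul_apply, ρ.form_equivariant, smul_eq_mul, mul_assoc]
  have h3 : ((ρ.χ γ : Fˣ) : F) * ((ρ.χ γ)⁻¹ : Fˣ).val = 1 := Units.mul_inv _
  rw [h2]
  generalize ((ρ.χ γ)⁻¹ : Fˣ).val = s at h3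
  generalize ((ρ.χ γ : Fˣ) : F) = t at h3
  generalize fq ρ Q v = w
  linear_combination (t * s + 1) * w * h3

omit [FiniteDimensional F V] in
private theorem fq_DF (Q : Module.End F V →ₗ[F] Module.End F V) {X : Module.End F V}
    (hX : Skew ρ X) (v : Fin 4 → V) : DF X (fq ρ Q) v =
      ρ.form ((Q (X * rk ρ (v 0) (v 1) - rk ρ (v 0) (v 1) * X) -
        (X * Q (rk ρ (v 0) (v 1)) - Q (rk ρ (v 0) (v 1)) * X)) (v 2)) (v 3) := by
  have e1 : ∀ a b, rk ρ (X a) b = X * rk ρ a b := by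
    intro a b
    ext x
    rw [Module.End.mul_apply, rk_apply, rk_apply, map_smul]
  have e2 : ∀ a b, rk ρ a (X b) = -(rk ρ a b * X) := by
    intro a b
    ext x
    rw [LinearMap.neg_apply, Module.End.mul_apply, rk_apply, rk_apply,
      eq_neg_of_add_eq_zero_left (hX b x), neg_smul]
  have e3 : ∀ a b, ρ.form a (X b) = -ρ.form (X a) b := fun a b =>
    eq_neg_of_add_eq_zero_right (hX a b)
  unfold DF
  rw [Fin.sum_univ_four]
  simp only [fq_apply]
  have u1 := fun x => (upd v x).1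
  have u2 := fun x => (upd v x).2.1
  have u3 := fun x => (upd v x).2.2.1
  have u4 := fun x => (upd v x).2.2.2
  rw [(u1 _).1, (u1 _).2.1, (u1 _).2.2.1, (u1 _).2.2.2, (u2 _).1, (u2 _).2.1, (u2 _).2.2.1,
    (u2 _).2.2.2, (u3 _).1, (u3 _).2.1, (u3 _).2.2.1, (u3 _).2.2.2, (u4 _).1, (u4 _).2.1,
    (u4 _).2.2.1, (u4 _).2.2.2, e1, e2, e3]
  simp only [map_sub, map_neg, LinearMap.sub_apply, LinearMap.neg_apply, Module.End.mul_apply]
  ring

theorem q_of_form (h : LefF ρ 2) (Q : Module.End F V →ₗ[F] Module.End F V)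
    (hQ : ∃ U : OpenSubgroup Γ, ∀ γ ∈ U, ∀ Y,
      Q (ρ.T γ * Y * ρ.T γ⁻¹) = ρ.T γ * Q Y * ρ.T γ⁻¹)
    (hz : ∀ z, CenSkew ρ z → ∀ Y, z * Q Y - Q Y * z = Q (z * Y - Y * z))
    {X : Module.End F V} (hX : Lef ρ X) (Y : Module.End F V) :
    X * Q Y - Q Y * X = Q (X * Y - Y * X) := by
  obtain ⟨hXc, hXs⟩ := hX
  have h1 : ∀ v : Fin 4 → V, DF X (fq ρ Q) v = 0 :=
    h (fq ρ Q) (fq_tate ρ Q hQ) (fun z hz1 v => by
      have h2 := fq_DF ρ Q hz1.2.2 v
      rw [hz z hz1, sub_self, LinearMap.zero_apply, map_zero, LinearMap.zero_apply] at h2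
      exact h2) X ⟨hXc, hXs⟩
  have key : ∀ a b, X * Q (rk ρ a b) - Q (rk ρ a b) * X =
      Q (X * rk ρ a b - rk ρ a b * X) := by
    intro a b
    refine (sub_eq_zero.1 ?_).symm
    ext c
    refine ρ.form_nondeg _ fun d => ?_
    have h2 := h1 ![a, b, c, d]
    rw [fq_DF ρ Q hXs] at h2
    exact h2
  have hsurj : Function.Surjective ρ.form := by
    refine (LinearMap.injective_iff_surjective_of_finrank_eq_finrank
      (Subspace.dual_finrank_eq (K := F) (V := V)).symm).1 ?_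
    rw [← LinearMap.ker_eq_bot, LinearMap.ker_eq_bot']
    intro x hx
    exact ρ.form_nondeg x fun y => by rw [hx, LinearMap.zero_apply]
  let e := Module.finBasis F V
  choose b hb using fun j => hsurj (e.coord j)
  have hY : Y = ∑ j, rk ρ (Y (e j)) (b j) := by
    ext x
    rw [LinearMap.sum_apply]
    conv_lhs => rw [← e.sum_repr x, map_sum]
    refine Finset.sum_congr rfl fun j _ => ?_
    rw [rk_apply, hb, map_smul, Module.Basis.coord_apply]
  rw [hY]
  simp only [map_sum, Finset.mul_sum, Finset.sum_mul, ← Finset.sum_sub_distrib]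
  exact Finset.sum_congr rfl fun j _ => key _ _

end Pool.Agent.Lib.MP_640417_ag.Fr
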