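import Pool.Agent.Lib.MP_640417_ag.Uni.Main
import Pool.Agent.Lib.MP_640417_ag.Fr.SemiD
import Pool.Agent.Lib.MP_640417_ag.Fr.QForm
import Pool.Agent.Lib.MP_640417_ag.Fr.QDbl
import Pool.Agent.Lib.MP_640417_ag.Fr.KillF
import Pool.Agent.Lib.MP_640417_ag.Fr.ResF
import Pool.Agent.Lib.MP_640417_ag.Fr.GoodFD
import Pool.Agent.Lib.MP_640417_ag.Fr.DetFD

/-!
# MP_640417_ag: the local-global principle with the zero-one law for every variety
-/

set_option autoImplicit false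

namespace Pool.Agent.Lib.MP_640417_ag.Fr

open Matrix Module MeasureTheory Pool.Agent.Lib.MP_640417_ag.Glob
  Pool.Agent.Lib.MP_640417_ag.Ctl Pool.Agent.Lib.MP_640417_ag.Ty
  Pool.Agent.Lib.MP_640417_ag.Gen4 Pool.Agent.Lib.MP_640417_ag.Uni

variable (l : ℕ) [Fact l.Prime] {Γ : Type} [Group Γ]
    [TopologicalSpace Γ] [IsTopologicalGroup Γ] [CompactSpace Γ] {V : Type} [AddCommGroup V]
    [Module ℚ_[l] V] [FiniteDimensional ℚ_[l] V] (ρ : FormRep Γ ℚ_[l] V)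

/-- the conditions on four variables give those for the doubled representation -/
theorem lef_dbl_of_form (hsemi : Semisimple ρ) (h : LefF ρ 2) (n i : ℕ) :
    LefCond (dbl ρ) n i :=
  lef_of_qcond l (dbl ρ) (semi_dbl ρ hsemi)
    (qcond_dbl ρ fun Q hQ hz _ hX Y => q_of_form ρ h Q hQ hz hX Y) n i

/-- one detecting element -/
theorem lefF_of_detects (hsemi : Semisimple ρ) {γ : Γ} (h : DetectsF ρ γ) (i : ℕ) :
    LefF ρ i := by
  intro f hf hz X hX v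
  obtain ⟨U, hU⟩ := Ty.exists_U0 (dbl ρ)
  have := topGroup_U U
  have := compact_U U
  have hγU : γ ∈ U := (hU γ).mpr ((detects_dbl ρ γ).mpr h).1
  have hD : Detects1 (dbl (resF ρ U)) ⟨γ, hγU⟩ := by
    rw [dbl_res]
    exact (detects1_res (dbl ρ) U ⟨γ, hγU⟩).mpr ((detects_dbl ρ γ).mpr h)
  have hss : Pool.Agent.Lib.MP_640417_ag.Four.Semisimple (dbl (resF ρ U)) := by
    rw [dbl_res]
    exact semi_res (dbl ρ) U (semi_dbl ρ hsemi)
  have hfull : ∀ c, CommF (dbl (resF ρ U)) c →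
      ∀ γ', c * (dbl (resF ρ U)).T γ' = (dbl (resF ρ U)).T γ' * c := by
    rw [dbl_res]
    exact fun c hc γ' => (hU γ'.1).mp γ'.2 c ((commF_res (dbl ρ) U c).mp hc)
  obtain ⟨R, h1, h2, h3⟩ := exists_coord (dbl (resF ρ U)) (Module.finBasis ℚ_[l] (V × V))
  have hs := coord_semi (dbl (resF ρ U)) _ R h1 hss
  have hL : Lefschetz (dbl (resF ρ U)) (X.prodMap X) :=
    (lef_dbl (resF ρ U) _).mpr ⟨X, (lefSkew_res ρ U X).mpr hX, rfl⟩
  have h5 := (lef_coord l (dbl (resF ρ U)) _ R h1 h3 (X.prodMap X)).mp hL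
  have hm := mem_of_detects1 R l (norm_l l) (l_ne l) hs
    (full_coord (dbl (resF ρ U)) _ R h1 hfull) (AlgebraicClosure ℚ_[l])
    ((detects1_iff (dbl (resF ρ U)) _ R h1 h2 h3 _).mp hD) h5.1 h5.2
  exact kill_form l (resF ρ U) _ R h1 h2 h3 X hm i f ((tateF_res ρ U i f).mpr hf)
    (fun z hz' => hz z ((cenSkew_res ρ U z).mp hz')) v

/-- **The local-global principle with the zero-one law for every variety.** -/
theorem tfae_form (hsemi : Semisimple ρ) [MeasurableSpace Γ] [BorelSpace Γ] (ν : Measure Γ)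
    [ν.IsHaarMeasure] :
    List.TFAE [∀ i, LefF ρ i, LefF ρ 2,
      ∀ D : Set Γ, Dense D → ∃ γ ∈ D, GoodF ρ γ,
      ∃ (U : OpenSubgroup Γ) (O : Set Γ), IsOpen O ∧ O ⊆ U ∧ ν ((U : Set Γ) \ O) = 0 ∧
        ∀ γ ∈ O, GoodF ρ γ,
      ∃ γ, DetectsF ρ γ] := by
  tfae_have 1 → 2 := fun h => h 2
  tfae_have 2 → 4 := by
    intro h
    obtain ⟨U, O, hO, hOU, hν, hg⟩ := ((tfae_uni l (dbl ρ) (semi_dbl ρ hsemi) ν).out 0 3
      rfl rfl).mp (lef_dbl_of_form l ρ hsemi h)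
    exact ⟨U, O, hO, hOU, hν, fun γ hγ => (good_dbl ρ γ).mp (hg γ hγ)⟩
  tfae_have 4 → 3 := by
    rintro ⟨U, O, hO, hOU, hν, hg⟩ D hD
    have hne : O.Nonempty := by
      by_contra h1
      rw [Set.not_nonempty_iff_eq_empty] at h1
      rw [h1, Set.sdiff_empty] at hν
      exact (U.isOpen.measure_pos ν ⟨1, U.one_mem⟩).ne' hν
    obtain ⟨γ, hγ, hγD⟩ := hD.inter_open_nonempty _ hO hne
    exact ⟨γ, hγD, hg γ hγ⟩
  tfae_have 3 → 5 := by
    intro h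
    obtain ⟨γ, -, hγ⟩ := h Set.univ dense_univ
    exact ⟨γ, (detects_dbl ρ γ).mp
      (detects1_of_good1 l (dbl ρ) (semi_dbl ρ hsemi) ((good_dbl ρ γ).mpr hγ))⟩
  tfae_have 5 → 1 := by
    rintro ⟨γ, hγ⟩ i
    exact lefF_of_detects l ρ hsemi hγ i
  tfae_finish

end Pool.Agent.Lib.MP_640417_ag.Fr
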